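import Mathlib

/-!
The algebra behind the computation of the vector fields on the quadric threefold in
characteristic two.
-/

set_option autoImplicit false

open MvPolynomial

namespace Pool.Agent.V1162.Q

section hom

variable {k : Type} [Field k]

theorem hc_sum (S : Finset ℕ) (s : ℕ → MvPolynomial (Fin 3) k) (d : ℕ → ℕ) (h : ∀ j ∈ S, (s j).IsHomogeneous (d j))
    (m : ℕ) :
    homogeneousComponent m (∑ j ∈ S, s j) = ∑ j ∈ S, if d j = m then s j else 0 := by
  rw [map_sum]
  refine Finset.sum_congr rfl fun j hj => ?_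
  rw [homogeneousComponent_of_mem (h j hj)]
  simp only [eq_comm]

theorem hc_mul {a : ℕ} {g : MvPolynomial (Fin 3) k} (hg : g.IsHomogeneous a) (p : MvPolynomial (Fin 3) k) (i : ℕ) :
    homogeneousComponent (a + i) (g * p) = g * homogeneousComponent i p := by
  conv_lhs => rw [← sum_homogeneousComponent p, Finset.mul_sum]
  rw [hc_sum _ _ (fun j => a + j) (fun j _ => hg.mul (homogeneousComponent_isHomogeneous j p))]
  by_cases hi : i ∈ Finset.range (p.totalDegree + 1)
  · rw [Finset.sum_eq_single i]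
    · simp
    · intro j _ hj
      rw [if_neg (by omega)]
    · intro h; exact absurd hi h
  · rw [Finset.sum_eq_zero]
    · rw [homogeneousComponent_eq_zero i p (by simpa using hi), mul_zero]
    · intro j hj
      rw [if_neg]
      intro h
      have : j = i := by omega
      rw [this] at hj
      exact hi hj

theorem aeval_scale {E : Type*} [CommRing E] [Algebra k E] {f : MvPolynomial (Fin 3) k} {n : ℕ}
    (hf : f.IsHomogeneous n) (u : Fin 3 → E) (w : E) :
    aeval (fun a => w * u a) f = w ^ n * aeval u f := by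
  rw [f.as_sum, map_sum, map_sum, Finset.mul_sum]
  refine Finset.sum_congr rfl (fun d hd => ?_)
  rw [aeval_monomial, aeval_monomial]
  have h1 : d.degree = n := hf.degree_eq_sum_deg_support hd ▸ rfl
  simp only [Finsupp.prod, mul_pow, Finset.prod_mul_distrib, Finset.prod_pow_eq_pow_sum]
  have h2 : ∑ i ∈ d.support, d i = n := by rw [← h1]; rfl
  rw [h2]
  ring

variable (k) in
/-- the quadratic form, with a minus sign -/
noncomputable def gg : MvPolynomial (Fin 3) k := -(X 0 ^ 2 + X 1 * X 2)

theorem gg_hom : (gg k).IsHomogeneous 2 :=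
  (((isHomogeneous_X k _).pow 2).add ((isHomogeneous_X k _).mul (isHomogeneous_X k _))).neg

theorem gg_ne : gg k ≠ 0 := by
  intro h
  have h1 := congrArg (eval (![1, 0, 0] : Fin 3 → k)) h
  simp [gg] at h1

section two

variable {E : Type*} [CommRing E] [Algebra k E] (ρ₁ ρ₂ : MvPolynomial (Fin 3) k →ₐ[k] E)
  (h12 : ∀ i, ρ₁ (gg k) * ρ₂ (X i) = ρ₁ (X i)) (hinj : Function.Injective ρ₁)

/-- homogenization -/
noncomputable def HH (N : ℕ) (F : MvPolynomial (Fin 3) k) : MvPolynomial (Fin 3) k :=
  ∑ j ∈ Finset.range (N + 1), gg k ^ (N - j) * homogeneousComponent j F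

include h12 in
theorem rho_HH (N : ℕ) (F : MvPolynomial (Fin 3) k) (hN : F.totalDegree ≤ N) :
    ρ₁ (HH N F) = ρ₁ (gg k) ^ N * ρ₂ F := by
  have h1 : ∀ j, ρ₁ (homogeneousComponent j F) =
      ρ₁ (gg k) ^ j * ρ₂ (homogeneousComponent j F) := by
    intro j
    have h2 : ∀ f : MvPolynomial (Fin 3) k, ρ₁ f = aeval (fun i => ρ₁ (X i)) f :=
      fun f => DFunLike.congr_fun (aeval_unique ρ₁) f
    have h3 : ∀ f : MvPolynomial (Fin 3) k, ρ₂ f = aeval (fun i => ρ₂ (X i)) f :=
      fun f => DFunLike.congr_fun (aeval_unique ρ₂) f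
    rw [h2, h3, ← aeval_scale (homogeneousComponent_isHomogeneous j F)]
    congr 2
    funext i
    exact (h12 i).symm
  have h4 : F = ∑ j ∈ Finset.range (N + 1), homogeneousComponent j F := by
    conv_lhs => rw [← sum_homogeneousComponent F]
    refine Finset.sum_subset (fun j hj => ?_) (fun j _ hj => ?_)
    · rw [Finset.mem_range] at hj ⊢
      omega
    · apply homogeneousComponent_eq_zero
      rw [Finset.mem_range] at hj
      omega
  conv_rhs => rw [h4, map_sum, Finset.mul_sum]
  rw [HH, map_sum]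
  refine Finset.sum_congr rfl fun j hj => ?_
  rw [map_mul, map_pow, h1, ← mul_assoc, ← pow_add]
  congr 2
  rw [Finset.mem_range] at hj
  omega

section one

variable {p P Q R : MvPolynomial (Fin 3) k} (e : Fin 3)
  (hp : ρ₁ p = ρ₁ (gg k) * ρ₂ P + ρ₁ (X e) * (ρ₁ (X 1) * ρ₂ R + ρ₁ (X 2) * ρ₂ Q))

include h12 hinj hp in
theorem key_sum (N : ℕ) (hP : P.totalDegree ≤ N) (hQ : Q.totalDegree ≤ N)
    (hR : R.totalDegree ≤ N) (i : ℕ) :
    gg k ^ N * homogeneousComponent i p = ∑ j ∈ Finset.range (N + 1),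
      if 2 * (N - j) + (j + 2) = 2 * N + i then
        gg k ^ (N - j) * (gg k * homogeneousComponent j P +
          X e * (X 1 * homogeneousComponent j R + X 2 * homogeneousComponent j Q)) else 0 := by
  have h1 : gg k ^ N * p = ∑ j ∈ Finset.range (N + 1),
      gg k ^ (N - j) * (gg k * homogeneousComponent j P +
          X e * (X 1 * homogeneousComponent j R + X 2 * homogeneousComponent j Q)) := by
    have h2 : gg k ^ N * p = gg k * HH N P + X e * (X 1 * HH N R + X 2 * HH N Q) := by
      apply hinj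
      rw [map_mul, map_pow, hp, map_add, map_mul, map_mul, map_add, map_mul, map_mul,
        rho_HH ρ₁ ρ₂ h12 N P hP, rho_HH ρ₁ ρ₂ h12 N Q hQ, rho_HH ρ₁ ρ₂ h12 N R hR]
      ring
    rw [h2, HH, HH, HH, Finset.mul_sum, Finset.mul_sum, Finset.mul_sum, ← Finset.sum_add_distrib,
      Finset.mul_sum, ← Finset.sum_add_distrib]
    refine Finset.sum_congr rfl fun j _ => ?_
    ring
  have h3 : homogeneousComponent (2 * N + i) (gg k ^ N * p) =
      gg k ^ N * homogeneousComponent i p := hc_mul (gg_hom.pow N) p i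
  rw [← h3, h1, hc_sum _ _ (fun j => 2 * (N - j) + (j + 2))]
  intro j _
  refine (gg_hom.pow (N - j)).mul ?_
  have e1 : (gg k * homogeneousComponent j P).IsHomogeneous (j + 2) := by
    rw [add_comm]
    exact gg_hom.mul (homogeneousComponent_isHomogeneous j P)
  refine e1.add ?_
  have e2 : ((X 1 * homogeneousComponent j R + X 2 * homogeneousComponent j Q) :
      MvPolynomial (Fin 3) k).IsHomogeneous (1 + j) :=
    ((isHomogeneous_X k _).mul (homogeneousComponent_isHomogeneous j R)).add
      ((isHomogeneous_X k _).mul (homogeneousComponent_isHomogeneous j Q))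
  have e3 := (isHomogeneous_X k e).mul e2
  rw [show 1 + (1 + j) = j + 2 by ring] at e3
  exact e3

include h12 hinj hp in
theorem key_high (i : ℕ) (hi : 3 ≤ i) : homogeneousComponent i p = 0 := by
  have h := key_sum ρ₁ ρ₂ h12 hinj e hp (max P.totalDegree (max Q.totalDegree R.totalDegree))
    (le_max_left _ _) ((le_max_left _ _).trans (le_max_right _ _))
    ((le_max_right _ _).trans (le_max_right _ _)) i
  rw [Finset.sum_eq_zero] at h
  · exact (mul_eq_zero.1 h).resolve_left (pow_ne_zero _ gg_ne)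
  · intro j hj
    rw [Finset.mem_range] at hj
    rw [if_neg (by omega)]

include h12 hinj hp in
theorem key_two : homogeneousComponent 2 p = gg k * homogeneousComponent 0 P +
    X e * (X 1 * homogeneousComponent 0 R + X 2 * homogeneousComponent 0 Q) := by
  set N := max P.totalDegree (max Q.totalDegree R.totalDegree) with hN
  have h := key_sum ρ₁ ρ₂ h12 hinj e hp N
    (le_max_left _ _) ((le_max_left _ _).trans (le_max_right _ _))
    ((le_max_right _ _).trans (le_max_right _ _)) 2
  rw [Finset.sum_eq_single 0] at h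
  · rw [if_pos (by omega), Nat.sub_zero] at h
    exact mul_left_cancel₀ (pow_ne_zero _ gg_ne) h
  · intro j hj hj0
    rw [Finset.mem_range] at hj
    rw [if_neg (by omega)]
  · intro h0
    exact absurd (Finset.mem_range.2 (by omega)) h0

include h12 hinj hp in
theorem key_one : gg k * homogeneousComponent 1 p = gg k * homogeneousComponent 1 P +
    X e * (X 1 * homogeneousComponent 1 R + X 2 * homogeneousComponent 1 Q) := by
  set N := max P.totalDegree (max Q.totalDegree R.totalDegree) with hN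
  have h := key_sum ρ₁ ρ₂ h12 hinj e hp (N + 1)
    ((le_max_left _ _).trans (Nat.le_succ _))
    (((le_max_left _ _).trans (le_max_right _ _)).trans (Nat.le_succ _))
    (((le_max_right _ _).trans (le_max_right _ _)).trans (Nat.le_succ _)) 1
  rw [Finset.sum_eq_single 1] at h
  · rw [if_pos (by omega), Nat.add_sub_cancel, pow_succ, mul_assoc] at h
    exact mul_left_cancel₀ (pow_ne_zero _ gg_ne) h
  · intro j hj hj0
    rw [Finset.mem_range] at hj
    rw [if_neg (by omega)]
  · intro h0
    exact absurd (Finset.mem_range.2 (by omega)) h0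

end one

/-- a linear form -/
theorem lin_form (f : MvPolynomial (Fin 3) k) :
    homogeneousComponent 1 f = C (coeff (Finsupp.single 0 1) f) * X 0 +
      C (coeff (Finsupp.single 1 1) f) * X 1 + C (coeff (Finsupp.single 2 1) f) * X 2 := by
  classical
  have h1 : homogeneousComponent 1 f ∈ homogeneousSubmodule (Fin 3) k 1 :=
    homogeneousComponent_isHomogeneous 1 f
  rw [homogeneousSubmodule_one_eq_span_X, Submodule.mem_span_range_iff_exists_fun] at h1
  obtain ⟨c, hc⟩ := h1
  rw [Fin.sum_univ_three] at hc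
  have h2 : ∀ i : Fin 3, coeff (Finsupp.single i 1) f = c i := by
    intro i
    have h3 : coeff (Finsupp.single i 1) (homogeneousComponent 1 f) =
        coeff (Finsupp.single i 1) f := by
      rw [coeff_homogeneousComponent, if_pos (by simp)]
    rw [← h3, ← hc]
    fin_cases i <;> simp [coeff_X, Finsupp.single_left_inj]
  rw [← hc, h2, h2, h2, smul_eq_C_mul, smul_eq_C_mul, smul_eq_C_mul]

theorem eq_two_terms {f : MvPolynomial (Fin 3) k}
    (h : ∀ i, 2 ≤ i → homogeneousComponent i f = 0) :
    f = C (coeff 0 f) + homogeneousComponent 1 f := by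
  conv_lhs => rw [← sum_homogeneousComponent f]
  have h1 : ∑ i ∈ Finset.range (f.totalDegree + 1), homogeneousComponent i f =
      ∑ i ∈ Finset.range (f.totalDegree + 2), homogeneousComponent i f := by
    rw [Finset.sum_range_succ _ (f.totalDegree + 1), homogeneousComponent_eq_zero (f.totalDegree + 1)
      f (by omega), add_zero]
  have h2 : ∑ i ∈ Finset.range 2, homogeneousComponent i f =
      ∑ i ∈ Finset.range (f.totalDegree + 2), homogeneousComponent i f := by
    refine Finset.sum_subset (fun j hj => ?_) (fun j _ hj => ?_)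
    · rw [Finset.mem_range] at hj ⊢
      omega
    · rw [Finset.mem_range] at hj
      exact h j (by omega)
  rw [h1, ← h2, Finset.sum_range_succ, Finset.sum_range_succ, Finset.sum_range_zero, zero_add,
    homogeneousComponent_zero]

variable {p q r P Q R : MvPolynomial (Fin 3) k}
  (hp : ρ₁ p = ρ₁ (gg k) * ρ₂ P + ρ₁ (X 0) * (ρ₁ (X 1) * ρ₂ R + ρ₁ (X 2) * ρ₂ Q))
  (hq : ρ₁ q = ρ₁ (gg k) * ρ₂ Q + ρ₁ (X 1) * (ρ₁ (X 1) * ρ₂ R + ρ₁ (X 2) * ρ₂ Q))
  (hr : ρ₁ r = ρ₁ (gg k) * ρ₂ R + ρ₁ (X 2) * (ρ₁ (X 1) * ρ₂ R + ρ₁ (X 2) * ρ₂ Q))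

include h12 hinj hp hq hr in
theorem alg_main [CharP k 2] [Infinite k]
    (p0 : coeff 0 p = 0) (q0 : coeff 0 q = 0) (r0 : coeff 0 r = 0)
    (P0 : coeff 0 P = 0) (Q0 : coeff 0 Q = 0) (R0 : coeff 0 R = 0)
    (pa : coeff (Finsupp.single 0 1) p = 0) (pb : coeff (Finsupp.single 1 1) p = 0)
    (pc : coeff (Finsupp.single 2 1) p = 0) (qb : coeff (Finsupp.single 1 1) q = 0) :
    p = 0 ∧ q = 0 ∧ r = 0 := by
  classical
  have h20 : (2 : k) = 0 := by exact_mod_cast CharP.cast_eq_zero k 2
  have h2 : (2 : MvPolynomial (Fin 3) k) = 0 := by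
    have : (2 : MvPolynomial (Fin 3) k) = C (2 : k) := (map_ofNat C 2).symm
    rw [this, h20, map_zero]
  have two : ∀ {f F : MvPolynomial (Fin 3) k} (e : Fin 3)
      (_ : ρ₁ f = ρ₁ (gg k) * ρ₂ F + ρ₁ (X e) * (ρ₁ (X 1) * ρ₂ R + ρ₁ (X 2) * ρ₂ Q)),
      coeff 0 F = 0 → coeff 0 f = 0 → f = homogeneousComponent 1 f := by
    intro f F e hf hF hf0
    have h := eq_two_terms (f := f) (by
      intro i hi
      rcases Nat.eq_or_lt_of_le hi with h1 | h1
      · rw [← h1, key_two ρ₁ ρ₂ h12 hinj e hf, homogeneousComponent_zero,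
          homogeneousComponent_zero, homogeneousComponent_zero, hF, Q0, R0]
        simp
      · exact key_high ρ₁ ρ₂ h12 hinj e hf i h1)
    rw [hf0, map_zero, zero_add] at h
    exact h
  have ep := two 0 hp P0 p0
  have eq := two 1 hq Q0 q0
  have er := two 2 hr R0 r0
  have kp := key_one ρ₁ ρ₂ h12 hinj 0 hp
  have kq := key_one ρ₁ ρ₂ h12 hinj 1 hq
  have kr := key_one ρ₁ ρ₂ h12 hinj 2 hr
  have hp0 : p = 0 := by
    rw [ep, lin_form p, pa, pb, pc]
    simp
  rw [← ep, hp0, mul_zero] at kp
  rw [← eq] at kq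
  rw [← er] at kr
  set s := X 1 * homogeneousComponent 1 R + X 2 * homogeneousComponent 1 Q with hs
  have hsum : gg k * (X 1 * r + X 2 * q) = gg k * s := by
    have : gg k * (X 1 * r + X 2 * q) = X 1 * (gg k * r) + X 2 * (gg k * q) := by ring
    rw [this, kq, kr, hs]
    linear_combination (X 1 * X 2 * (X 1 * homogeneousComponent 1 R +
      X 2 * homogeneousComponent 1 Q)) * h2
  have hs2 : X 1 * r + X 2 * q = s := mul_left_cancel₀ gg_ne hsum
  -- linear forms
  have lP := lin_form P
  have lq := lin_form q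
  have lr := lin_form r
  rw [← eq] at lq
  rw [← er] at lr
  rw [qb] at lq
  generalize coeff (Finsupp.single 0 1) P = α at lP
  generalize coeff (Finsupp.single 1 1) P = β at lP
  generalize coeff (Finsupp.single 2 1) P = γ at lP
  generalize coeff (Finsupp.single 0 1) q = qa at lq
  generalize coeff (Finsupp.single 2 1) q = qc at lq
  generalize coeff (Finsupp.single 0 1) r = ra at lr
  generalize coeff (Finsupp.single 1 1) r = rb at lr
  generalize coeff (Finsupp.single 2 1) r = rc at lr
  -- (*)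
  have star : ∀ x : Fin 3 → k, 0 = -(x 0 ^ 2 + x 1 * x 2) * (α * x 0 + β * x 1 + γ * x 2) +
      x 0 * eval x s := by
    intro x
    have h := congrArg (eval x) kp
    rw [lP] at h
    simpa [gg] using h
  have ss : ∀ x : Fin 3 → k, eval x s = x 1 * (ra * x 0 + rb * x 1 + rc * x 2) +
      x 2 * (qa * x 0 + qc * x 2) := by
    intro x
    rw [← hs2, lr, lq]
    simp
  obtain ⟨t, ht⟩ := Set.Infinite.exists_notMem_finset (Set.infinite_univ (α := k)) {0, 1}
  simp only [Finset.mem_insert, Finset.mem_singleton, not_or] at ht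
  obtain ⟨-, ht0, ht1⟩ := ht
  have hα : α = 0 := by
    have h := star ![1, 0, 0]
    rw [ss] at h
    simpa using h
  have hβγ : β = 0 ∧ γ = 0 := by
    have h1' := star ![0, 1, 1]
    have h2' := star ![0, 1, t]
    simp [hα, ht0] at h1' h2'
    have h3 : γ * (t - 1) = 0 := by linear_combination h2' - h1'
    have h4 : γ = 0 := (mul_eq_zero.1 h3).resolve_right (sub_ne_zero.2 ht1)
    refine ⟨?_, h4⟩
    rw [h4] at h1'
    simpa using h1'
  have hP : homogeneousComponent 1 P = 0 := by
    rw [lP, hα, hβγ.1, hβγ.2]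
    simp
  rw [hP, mul_zero, zero_add] at kp
  have hs0 : s = 0 := (mul_eq_zero.1 kp.symm).resolve_left (X_ne_zero 0)
  have sx : ∀ x : Fin 3 → k, x 1 * (ra * x 0 + rb * x 1 + rc * x 2) +
      x 2 * (qa * x 0 + qc * x 2) = 0 := by
    intro x
    rw [← ss, hs0, map_zero]
  have hrb : rb = 0 := by simpa using sx ![0, 1, 0]
  have hra : ra = 0 := by simpa [hrb] using sx ![1, 1, 0]
  have hqc : qc = 0 := by simpa using sx ![0, 0, 1]
  have hqa : qa = 0 := by simpa [hqc] using sx ![1, 0, 1]
  have hrc : rc = 0 := by simpa [hrb, hqc] using sx ![0, 1, 1]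
  refine ⟨hp0, ?_, ?_⟩
  · rw [lq, hqa, hqc]; simp
  · rw [lr, hra, hrb, hrc]; simp

end two

end hom

end Pool.Agent.V1162.Q
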