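import Pool.Agent.V1162.Q.PrB

/-!
Constants as functions on `Proj`.
-/

set_option autoImplicit false

open AlgebraicGeometry CategoryTheory TopologicalSpace

namespace Pool.Agent.V1162.Q

open Pool.Agent.Helper922.VS HomogeneousLocalization

section

variable {k A : Type} [Field k] [CommRing A] [Algebra k A]
  {𝒜 : ℕ → Submodule k A} [GradedAlgebra 𝒜]

theorem appLE_toSpecK {m : ℕ} {f : A} (hf : f ∈ 𝒜 m) (hm : 0 < m) :
    (H944U.toSpecK 𝒜).appLE ⊤ (Proj.basicOpen 𝒜 f) le_top =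
      (Scheme.ΓSpecIso (.of k)).hom ≫
        CommRingCat.ofHom ((fromZeroRingHom 𝒜 (Submonoid.powers f)).comp (algebraMap k (𝒜 0))) ≫
          Proj.awayToSection 𝒜 f := by
  have h1 : (Proj.basicOpen 𝒜 f).ι ≫ H944U.toSpecK 𝒜 = Proj.basicOpenToSpec 𝒜 f ≫
      Spec.map (CommRingCat.ofHom ((fromZeroRingHom 𝒜 (Submonoid.powers f)).comp
          (algebraMap k (𝒜 0)))) := by
    have h2 : Proj.awayι 𝒜 f hf hm ≫ H944U.toSpecK 𝒜 =
        Spec.map (CommRingCat.ofHom ((fromZeroRingHom 𝒜 (Submonoid.powers f)).comp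
          (algebraMap k (𝒜 0)))) := by
      rw [H944U.toSpecK, Proj.awayι_toSpecZero_assoc, ← Spec.map_comp]
      rfl
    rw [← h2, ← Category.assoc, ← Proj.basicOpenIsoSpec_hom 𝒜 f hf hm,
      ← Proj.basicOpenIsoSpec_inv_ι, Iso.hom_inv_id_assoc]
  have h3 := congrArg (fun q => Scheme.Hom.appTop q) h1
  simp only [Scheme.Hom.comp_appTop] at h3
  have h4 : Scheme.Hom.appTop (Proj.basicOpenToSpec 𝒜 f) = (Scheme.ΓSpecIso _).hom ≫
      Proj.awayToSection 𝒜 f ≫ (Proj.basicOpen 𝒜 f).topIso.inv :=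
    Proj.basicOpenToSpec_app_top 𝒜 f
  rw [h4, Scheme.ΓSpecIso_naturality_assoc] at h3
  have h5 := congrArg (fun q => q ≫ (Proj.basicOpen 𝒜 f).topIso.hom) h3
  simp only [Category.assoc, Iso.inv_hom_id, Category.comp_id] at h5
  rw [← h5]
  have h6 : (Proj.basicOpen 𝒜 f).ι.appTop ≫ (Proj.basicOpen 𝒜 f).topIso.hom =
      (Proj 𝒜).presheaf.map (homOfLE (le_top : Proj.basicOpen 𝒜 f ≤ ⊤)).op := by
    rw [Scheme.Opens.ι_appTop, Scheme.Opens.topIso_hom]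
    exact ((Proj 𝒜).presheaf.map_comp _ _).symm
  rw [h6]
  rfl

theorem baseHom_basicOpen {m : ℕ} {f : A} (hf : f ∈ 𝒜 m) (hm : 0 < m) (c : k) :
    baseHom (H944U.toSpecK 𝒜) (Proj.basicOpen 𝒜 f) c =
      Proj.awayToSection 𝒜 f (fromZeroRingHom 𝒜 (Submonoid.powers f) (algebraMap k (𝒜 0) c)) := by
  have h := congrArg (fun q => q.hom ((Scheme.ΓSpecIso (CommRingCat.of k)).inv.hom c))
    (appLE_toSpecK (𝒜 := 𝒜) hf hm)
  refine h.trans ?_
  change (Proj.awayToSection 𝒜 f).hom (((fromZeroRingHom 𝒜 (Submonoid.powers f)).comp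
    (algebraMap k (𝒜 0))) ((Scheme.ΓSpecIso (.of k)).hom.hom
      ((Scheme.ΓSpecIso (.of k)).inv.hom c))) = _
  rw [show (Scheme.ΓSpecIso (.of k)).hom.hom ((Scheme.ΓSpecIso (.of k)).inv.hom c) = c from
    Iso.inv_hom_id_apply (Scheme.ΓSpecIso (.of k)) c]
  rfl

theorem baseHom_rs {X : Scheme.{0}} (p : X ⟶ Spec (CommRingCat.of k)) {V W : X.Opens}
    (h : W ≤ V) (c : k) : baseHom p W c = rs h (baseHom p V c) := by
  have h1 := Scheme.Hom.appLE_map p (U := ⊤) (V := V) le_top (homOfLE h).op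
  exact (congrArg (fun q => q.hom ((Scheme.ΓSpecIso (CommRingCat.of k)).inv.hom c)) h1).symm

theorem exists_pos (x : Proj 𝒜) : ∃ (m : ℕ) (f : A), f ∈ 𝒜 m ∧ 0 < m ∧
    x ∈ Proj.basicOpen 𝒜 f := by
  have h := ProjectiveSpectrum.not_irrelevant_le x
  by_contra hcon
  push Not at hcon
  apply h
  refine (HomogeneousIdeal.toIdeal_irrelevant_le _).2 ?_
  intro i hi a ha
  by_contra h2
  exact hcon i a ha hi h2

/-- the value of a constant -/
theorem ev_baseHom (V : (Proj 𝒜).Opens) (c : k) (x : Proj 𝒜) (hx : x ∈ V) :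
    ev x hx (baseHom (H944U.toSpecK 𝒜) V c) =
      algebraMap A (Localization (nv x)) (algebraMap k A c) := by
  obtain ⟨m, f, hf, hm, hxf⟩ := exists_pos x
  have h1 := baseHom_rs (H944U.toSpecK 𝒜) (inf_le_left : V ⊓ Proj.basicOpen 𝒜 f ≤ V) c
  have h2 := baseHom_rs (H944U.toSpecK 𝒜)
    (inf_le_right : V ⊓ Proj.basicOpen 𝒜 f ≤ Proj.basicOpen 𝒜 f) c
  have h3 : ev x hx (baseHom (H944U.toSpecK 𝒜) V c) =
      ev x hxf (baseHom (H944U.toSpecK 𝒜) (Proj.basicOpen 𝒜 f) c) := by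
    have hx2 : x ∈ V ⊓ Proj.basicOpen 𝒜 f := ⟨hx, hxf⟩
    exact (congrArg (ev x hx2) (h1.symm.trans h2) :)
  rw [h3, baseHom_basicOpen hf hm, ← Localization.mk_one_eq_algebraMap]
  rfl

end

end Pool.Agent.V1162.Q
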