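import Pool.Agent.Helper922.StmtDefs
import Pool.Agent.H944R2.U.FinalDefs

/-!
Sections of the tangent sheaf of a `k`-scheme and maps from a line bundle to the tangent sheaf.
-/

set_option autoImplicit false

open AlgebraicGeometry CategoryTheory

namespace Pool.Agent.V1162.Q

open Pool.Agent.Helper922.VS

/-- A section over the open set `U` of the tangent sheaf of the `k`-scheme `p : X ⟶ Spec k`:
`k`-linear derivations of the rings of functions on all open subsets `V` of `U`, compatible with the
restriction maps. -/
structure VectorField {k : Type} [Field k] {X : Scheme.{0}} (p : X ⟶ Spec (CommRingCat.of k))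
    (U : X.Opens) where
  D : ∀ V : X.Opens, V ≤ U → Reg X V → Reg X V
  add : ∀ (V : X.Opens) (hV : V ≤ U) (a b : Reg X V), D V hV (a + b) = D V hV a + D V hV b
  leibniz : ∀ (V : X.Opens) (hV : V ≤ U) (a b : Reg X V),
    D V hV (a * b) = a * D V hV b + b * D V hV a
  const : ∀ (V : X.Opens) (hV : V ≤ U) (c : k), D V hV (baseHom p V c) = 0
  restrict : ∀ (V W : X.Opens) (hV : V ≤ U) (h : W ≤ V) (a : Reg X V),
    D W (h.trans hV) (rs h a) = rs h (D V hV a)

/-- A morphism of `O_X`-modules from the line bundle `L` to the tangent sheaf of `X` over `k`. The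
local frame `e_i` of `L` over `U i` is mapped to the vector field `D i`; the frames are related by
`e_j = g_ij e_i` on `U i ∩ U j` (a section `s` of `L` is given by the functions `s_i` with
`s = s_i e_i`, `s_i = g_ij s_j`). -/
structure MapToTangent {k : Type} [Field k] {X : Scheme.{0}} (p : X ⟶ Spec (CommRingCat.of k))
    (L : LineSheaf X) where
  D : ∀ i, VectorField p (L.U i)
  compat : ∀ (i j : L.ι) (W : X.Opens) (hi : W ≤ L.U i) (hj : W ≤ L.U j) (a : Reg X W),
    (D j).D W hj a = rs (le_inf hi hj) (L.g i j) * (D i).D W hi a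

/-- The map `φ : L → T_X` is not zero. -/
def MapToTangent.IsNonzero {k : Type} [Field k] {X : Scheme.{0}}
    {p : X ⟶ Spec (CommRingCat.of k)} {L : LineSheaf X} (φ : MapToTangent p L) : Prop :=
  ∃ (i : L.ι) (V : X.Opens) (hV : V ≤ L.U i) (a : Reg X V), (φ.D i).D V hV a ≠ 0

/-- The map `φ : L → T_X` does not vanish at any point: every point of `X` has a neighbourhood `V`
with a function `a` on `V` such that the derivative of `a` with respect to the vector field given by
a local frame of `L` does not vanish at the point. -/
def MapToTangent.IsNowhereVanishing {k : Type} [Field k] {X : Scheme.{0}}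
    {p : X ⟶ Spec (CommRingCat.of k)} {L : LineSheaf X} (φ : MapToTangent p L) : Prop :=
  ∀ x : X, ∃ (i : L.ι) (V : X.Opens) (hV : V ≤ L.U i) (a : Reg X V),
    x ∈ V ∧ x ∈ nz ((φ.D i).D V hV a)

end Pool.Agent.V1162.Q
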