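import Mathlib

/-!
A derivation of degree zero of a graded ring acts on the functions on the open subsets of `Proj`.
-/

set_option autoImplicit false

open AlgebraicGeometry CategoryTheory TopologicalSpace TensorProduct

namespace Pool.Agent.V1162.Q

section ext

variable {k R : Type} [CommRing k] [CommRing R] [Algebra k R]

/-- derivations extend to localizations -/
theorem exists_ext (M : Submonoid R) (D : Derivation k R R) :
    ∃ D' : Derivation k (Localization M) (Localization M),
      ∀ p : R, D' (algebraMap R _ p) = algebraMap R _ (D p) := by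
  have := Algebra.FormallyEtale.of_isLocalization (Rₘ := Localization M) M
  let D1 : Derivation k R (Localization M) := (Algebra.linearMap R (Localization M)).compDer D
  let l1 : Ω[R⁄k] →ₗ[R] (Localization M) := D1.liftKaehlerDifferential
  let l2 : Ω[Localization M⁄k] →ₗ[Localization M] Localization M := (l1.liftBaseChange _) ∘ₗ
    (KaehlerDifferential.tensorKaehlerEquivOfFormallyEtale k R (Localization M)).symm.toLinearMap
  refine ⟨l2.compDer (KaehlerDifferential.D k (Localization M)), fun p => ?_⟩
  change l2 (KaehlerDifferential.D k (Localization M) (algebraMap R _ p)) = _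
  change (l1.liftBaseChange (Localization M))
    ((KaehlerDifferential.tensorKaehlerEquivOfFormallyEtale k R (Localization M)).symm
    (KaehlerDifferential.D k (Localization M) (algebraMap R _ p))) = _
  rw [KaehlerDifferential.tensorKaehlerEquivOfFormallyEtale_symm_D_algebraMap,
    LinearMap.liftBaseChange_tmul, one_smul, Derivation.liftKaehlerDifferential_comp_D]
  rfl

/-- the extension of a derivation to a localization -/
noncomputable def lder (M : Submonoid R) (D : Derivation k R R) :
    Derivation k (Localization M) (Localization M) := (exists_ext M D).choose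

theorem lder_alg (M : Submonoid R) (D : Derivation k R R) (p : R) :
    lder M D (algebraMap R _ p) = algebraMap R _ (D p) := (exists_ext M D).choose_spec p

theorem lder_mk (M : Submonoid R) (D : Derivation k R R) (a : R) (s : M) :
    lder M D (Localization.mk a s) =
      Localization.mk ((s : R) * D a - a * D s) (s * s) := by
  have hs : IsUnit (algebraMap R (Localization M) (s : R)) :=
    IsLocalization.map_units (Localization M) s
  have h0 : algebraMap R (Localization M) (s : R) * Localization.mk a s =
      algebraMap R (Localization M) a := by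
    rw [← Localization.mk_one_eq_algebraMap, ← Localization.mk_one_eq_algebraMap,
      Localization.mk_mul, Localization.mk_eq_mk_iff, Localization.r_iff_exists]
    exact ⟨1, by simp⟩
  have h1 := congrArg (lder M D) h0
  rw [Derivation.leibniz, lder_alg, lder_alg, smul_eq_mul, smul_eq_mul] at h1
  have h2 : algebraMap R (Localization M) ((s * s : M) : R) *
      Localization.mk ((s : R) * D a - a * D s) (s * s) =
      algebraMap R (Localization M) ((s : R) * D a - a * D s) := by
    rw [← Localization.mk_one_eq_algebraMap, ← Localization.mk_one_eq_algebraMap,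
      Localization.mk_mul, Localization.mk_eq_mk_iff, Localization.r_iff_exists]
    exact ⟨1, by simp⟩
  have hss : IsUnit (algebraMap R (Localization M) ((s * s : M) : R)) :=
    IsLocalization.map_units (Localization M) (s * s)
  apply hss.mul_left_cancel
  rw [h2]
  simp only [Submonoid.coe_mul, map_mul, map_sub]
  linear_combination (algebraMap R (Localization M) (s : R)) * h1 -
    (algebraMap R (Localization M) (D s)) * h0

end ext

section graded

variable {k A : Type} {σ : Type} [CommRing k] [CommRing A] [Algebra k A] [SetLike σ A] [AddSubgroupClass σ A]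
variable {𝒜 : ℕ → σ} [GradedRing 𝒜] (D : Derivation k A A) (hD : ∀ n, ∀ a ∈ 𝒜 n, D a ∈ 𝒜 n)

open HomogeneousLocalization

include hD in
theorem hder_mem {i : ℕ} (a s : 𝒜 i) : (s : A) * D a - (a : A) * D s ∈ 𝒜 (i + i) :=
  sub_mem (SetLike.mul_mem_graded s.2 (hD i _ a.2)) (SetLike.mul_mem_graded a.2 (hD i _ s.2))

/-- the fraction representing the derivative of a fraction -/
def nd {M : Submonoid A} (c : NumDenSameDeg 𝒜 M) : NumDenSameDeg 𝒜 M :=
  ⟨c.deg + c.deg, ⟨(c.den : A) * D c.num - (c.num : A) * D c.den, hder_mem D hD c.num c.den⟩,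
    ⟨(c.den : A) * c.den, SetLike.mul_mem_graded c.den.2 c.den.2⟩, mul_mem c.den_mem c.den_mem⟩

theorem val_nd {M : Submonoid A} (c : NumDenSameDeg 𝒜 M) :
    (HomogeneousLocalization.mk (nd D hD c)).val =
      lder M D (HomogeneousLocalization.mk c).val := by
  rw [HomogeneousLocalization.val_mk, HomogeneousLocalization.val_mk, lder_mk]
  rfl

include hD in
theorem hder_exists {M : Submonoid A} (z : HomogeneousLocalization 𝒜 M) :
    ∃ w : HomogeneousLocalization 𝒜 M, w.val = lder M D z.val := by
  obtain ⟨c, rfl⟩ := HomogeneousLocalization.mk_surjective z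
  exact ⟨_, val_nd D hD c⟩

/-- the action of a derivation of degree zero on a homogeneous localization -/
noncomputable def hder {M : Submonoid A} (z : HomogeneousLocalization 𝒜 M) :
    HomogeneousLocalization 𝒜 M := (hder_exists D hD z).choose

theorem val_hder {M : Submonoid A} (z : HomogeneousLocalization 𝒜 M) :
    (hder D hD z).val = lder M D z.val := (hder_exists D hD z).choose_spec

theorem hder_mk {M : Submonoid A} (c : NumDenSameDeg 𝒜 M) :
    hder D hD (HomogeneousLocalization.mk c) = HomogeneousLocalization.mk (nd D hD c) := by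
  apply HomogeneousLocalization.val_injective
  rw [val_hder, val_nd]

theorem hder_add {M : Submonoid A} (z w : HomogeneousLocalization 𝒜 M) :
    hder D hD (z + w) = hder D hD z + hder D hD w := by
  apply HomogeneousLocalization.val_injective
  simp only [val_hder, HomogeneousLocalization.val_add, map_add]

theorem hder_mul {M : Submonoid A} (z w : HomogeneousLocalization 𝒜 M) :
    hder D hD (z * w) = z * hder D hD w + w * hder D hD z := by
  apply HomogeneousLocalization.val_injective
  simp only [val_hder, HomogeneousLocalization.val_add, HomogeneousLocalization.val_mul,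
    Derivation.leibniz, smul_eq_mul]

/-- the action on sections -/
noncomputable def sder (V : (Proj 𝒜).Opens) (s : Γ(Proj 𝒜, V)) : Γ(Proj 𝒜, V) :=
  (⟨fun x => hder D hD (s.1 x), by
    intro x
    obtain ⟨U, hxU, i, j, r, t, ht, h⟩ := s.2 x
    refine ⟨U, hxU, i, j + j, ⟨(t : A) * D r - (r : A) * D t, hder_mem D hD r t⟩,
      ⟨(t : A) * t, SetLike.mul_mem_graded t.2 t.2⟩,
      fun y => by
        have hp := y.1.isPrime
        exact y.1.asHomogeneousIdeal.toIdeal.primeCompl.mul_mem (ht y) (ht y), ?_⟩
    intro y
    have h1 := h y
    exact (congrArg (hder D hD) h1).trans (hder_mk D hD _)⟩ :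
    (ProjectiveSpectrum.Proj.structureSheaf 𝒜).1.obj (Opposite.op V))

theorem sder_apply (V : (Proj 𝒜).Opens) (s : Γ(Proj 𝒜, V)) (x : V) :
    (sder D hD V s).1 x = hder D hD (s.1 x) := rfl

theorem sec_ext {V : (Proj 𝒜).Opens} {s t : Γ(Proj 𝒜, V)} (h : ∀ x : V, s.1 x = t.1 x) : s = t :=
  Subtype.ext (funext h)

theorem sder_add (V : (Proj 𝒜).Opens) (s t : Γ(Proj 𝒜, V)) :
    sder D hD V (s + t) = sder D hD V s + sder D hD V t := by
  apply sec_ext
  intro x
  exact hder_add D hD (s.1 x) (t.1 x)

theorem sder_mul (V : (Proj 𝒜).Opens) (s t : Γ(Proj 𝒜, V)) :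
    sder D hD V (s * t) = s * sder D hD V t + t * sder D hD V s := by
  apply sec_ext
  intro x
  exact hder_mul D hD (s.1 x) (t.1 x)

theorem sder_res {V W : (Proj 𝒜).Opens} (h : W ≤ V) (s : Γ(Proj 𝒜, V)) :
    sder D hD W ((Proj 𝒜).presheaf.map (homOfLE h).op s) =
      (Proj 𝒜).presheaf.map (homOfLE h).op (sder D hD V s) := rfl

/-- the action on the functions `a / s ^ n` -/
theorem sder_away (f : A) (z : Away 𝒜 f) :
    sder D hD (Proj.basicOpen 𝒜 f) (Proj.awayToSection 𝒜 f z) =
      Proj.awayToSection 𝒜 f (hder D hD z) := by
  apply sec_ext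
  intro x
  obtain ⟨c, rfl⟩ := HomogeneousLocalization.mk_surjective z
  rw [hder_mk]
  exact hder_mk D hD _

end graded

end Pool.Agent.V1162.Q
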