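import Pool.Agent.V1162.Q.NotIso

/-!
The quadric threefold in characteristic two: the nowhere vanishing map `O(1) → T`.
-/

set_option autoImplicit false

open AlgebraicGeometry CategoryTheory TopologicalSpace MvPolynomial

namespace Pool.Agent.V1162.Q

open Pool.Agent.Helper922.VS HomogeneousLocalization Pool.Agent.Helper198.Sch

attribute [local instance] MvPolynomial.gradedAlgebra

section

variable (k : Type) [Field k]

theorem d0_aux [CharP k 2] : ∀ x : MvPolynomial (Fin 5) k,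
    Ideal.Quotient.mkₐ k (JQ k).toIdeal x = 0 →
      Ideal.Quotient.mkₐ k (JQ k).toIdeal (pderiv 0 x) = 0 := by
  intro x hx
  have h20 : (2 : k) = 0 := by exact_mod_cast CharP.cast_eq_zero k 2
  have h2 : (2 : MvPolynomial (Fin 5) k) = 0 := by
    have : (2 : MvPolynomial (Fin 5) k) = C (2 : k) := (map_ofNat C 2).symm
    rw [this, h20, map_zero]
  have h1 : x ∈ Ideal.span {qf k} := Ideal.Quotient.eq_zero_iff_mem.1 hx
  rw [Ideal.mem_span_singleton] at h1
  obtain ⟨y, rfl⟩ := h1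
  have h3 : pderiv 0 (qf k) = 0 := by
    have h4 : pderiv 0 (qf k) = 2 * X 0 := by
      simp [qf, pderiv_X]
    rw [h4, h2, zero_mul]
  rw [Derivation.leibniz, h3, smul_zero, add_zero]
  exact Ideal.Quotient.eq_zero_iff_mem.2 (Ideal.mul_mem_right _ _ (Ideal.subset_span rfl))

/-- the derivation `∂ / ∂ x₀` of the coordinate ring of the quadric -/
noncomputable def d0 [CharP k 2] : Derivation k (MvPolynomial (Fin 5) k ⧸ (JQ k).toIdeal)
    (MvPolynomial (Fin 5) k ⧸ (JQ k).toIdeal) :=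
  Derivation.liftOfSurjective (f := Ideal.Quotient.mkₐ k (JQ k).toIdeal)
    (Ideal.Quotient.mkₐ_surjective k _) (d := pderiv 0) (d0_aux k)

variable [CharP k 2]

theorem d0_mk (x : MvPolynomial (Fin 5) k) :
    d0 k (Ideal.Quotient.mk (JQ k).toIdeal x) = Ideal.Quotient.mk (JQ k).toIdeal (pderiv 0 x) :=
  Derivation.liftOfSurjective_apply (f := Ideal.Quotient.mkₐ k (JQ k).toIdeal)
    (Ideal.Quotient.mkₐ_surjective k _) (d := pderiv 0) (d0_aux k) x

/-- the derivations `x_s ∂ / ∂ x₀` -/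
noncomputable def ds (s : Fin 5) : Derivation k (MvPolynomial (Fin 5) k ⧸ (JQ k).toIdeal)
    (MvPolynomial (Fin 5) k ⧸ (JQ k).toIdeal) := gen (JQ k) s • d0 k

theorem ds_apply (s : Fin 5) (a : MvPolynomial (Fin 5) k ⧸ (JQ k).toIdeal) :
    ds k s a = gen (JQ k) s * d0 k a := rfl

theorem ds_deg (s : Fin 5) (n : ℕ) : ∀ a ∈ QA k n, ds k s a ∈ QA k n := by
  intro a ha
  obtain ⟨f, hf, rfl⟩ := mem_qgrad.1 ha
  rw [ds_apply, d0_mk, gen, ← map_mul]
  exact mk_mem_qgrad (mul_pderiv_mem (isHomogeneous_X k s) 0 n hf)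

omit [CharP k 2] in
theorem exists_gq (x : Proj (QA k)) : ∃ s, x ∈ Proj.basicOpen (QA k)
    (gq k s : MvPolynomial (Fin 5) k ⧸ (JQ k).toIdeal) :=
  V.exists_mem_D (JQ k) x

variable [IsAlgClosed k]

/-- the map `O(1) → T` -/
noncomputable def phi (p : Proj (QA k) ⟶ Spec (CommRingCat.of k)) :
    MapToTangent p (OO (gq k) (exists_gq k)) :=
  mtt (gq k) (exists_gq k) (ds k) (ds_deg k)
    (by
      intro i j a
      rw [ds_apply, ds_apply]
      change gen (JQ k) i * (gen (JQ k) j * d0 k a) = gen (JQ k) j * (gen (JQ k) i * d0 k a)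
      ring) p

theorem phi_one (p : Proj (QA k) ⟶ Spec (CommRingCat.of k)) (t : Fin 4) :
    ((phi k p).D (cc t)).D (UQ k t) le_rfl (fr (gq k 0) (gq k (cc t))) = 1 := by
  have h1 := ofDer_fr (δ := ds k (cc t)) (ds_deg k (cc t)) p (UQ k t) (gq k 0) (gq k (cc t))
    le_rfl (gq k (cc t)) (by
      change gen (JQ k) (cc t) * ds k (cc t) (gen (JQ k) 0) -
        gen (JQ k) 0 * ds k (cc t) (gen (JQ k) (cc t)) = gen (JQ k) (cc t) * gen (JQ k) (cc t)
      have h2 : d0 k (gen (JQ k) 0) = 1 := by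
        rw [gen, d0_mk, pderiv_X_self, map_one]
      have h3 : d0 k (gen (JQ k) (cc t)) = 0 := by
        rw [gen, d0_mk, pderiv_X_of_ne (by fin_cases t <;> decide), map_zero]
      rw [ds_apply, ds_apply, h2, h3, mul_one, mul_zero, mul_zero, sub_zero])
  exact h1.trans (fr_self _)

theorem phi_nowhere (p : Proj (QA k) ⟶ Spec (CommRingCat.of k)) :
    (phi k p).IsNowhereVanishing := by
  intro x
  obtain ⟨t, ht⟩ := exists_chart (k := k) x
  refine ⟨cc t, UQ k t, le_rfl, fr (gq k 0) (gq k (cc t)), ht, ?_⟩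
  rw [phi_one]
  exact (Scheme.mem_basicOpen _ _ x ht).2 (by
    have := isUnit_one.map ((Proj (QA k)).presheaf.germ (UQ k t) x ht).hom
    exact this)

theorem phi_nonzero (p : Proj (QA k) ⟶ Spec (CommRingCat.of k)) : (phi k p).IsNonzero := by
  refine ⟨cc 0, UQ k 0, le_rfl, fr (gq k 0) (gq k (cc 0)), ?_⟩
  rw [phi_one]
  intro h
  obtain ⟨x, hx⟩ := WQ_ne (k := k)
  have h1 := congrArg (ev x hx.1) h
  rw [map_one, map_zero] at h1
  have : Nontrivial (Localization (nv x)) := by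
    have h2 : IsLocalization.AtPrime (Localization (nv x))
      (ProjectiveSpectrum.asHomogeneousIdeal (𝒜 := QA k) x).toIdeal := Localization.isLocalization
    exact IsLocalization.AtPrime.nontrivial (Localization (nv x))
      (ProjectiveSpectrum.asHomogeneousIdeal (𝒜 := QA k) x).toIdeal
  exact one_ne_zero h1

theorem final : ∃ (X : Scheme.{0}) (ι : X ⟶ H944U.PP k 4),
    IsClosedImmersion ι ∧ IsIntegral X ∧
    SmoothOfRelativeDimension 3 (ι ≫ H944U.toSpecK (homogeneousSubmodule (Fin 5) k)) ∧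
    (∃ L : LineSheaf X, L.IsAmple ∧
      ∃ φ : MapToTangent (ι ≫ H944U.toSpecK (homogeneousSubmodule (Fin 5) k)) L,
        φ.IsNonzero ∧ φ.IsNowhereVanishing) ∧
    ¬ ∃ e : X ≅ H944U.PP k 3, e.hom ≫ H944U.toSpecK (homogeneousSubmodule (Fin 4) k) =
      ι ≫ H944U.toSpecK (homogeneousSubmodule (Fin 5) k) := by
  have hstr : emb (JQ k) ≫ H944U.toSpecK (homogeneousSubmodule (Fin 5) k) = V.str (JQ k) :=
    emb_str (JQ k)
  refine ⟨V (JQ k), emb (JQ k), isClosedImmersion_emb _, isIntegral_VQ, ?_, ?_, ?_⟩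
  · rw [hstr]
    exact smooth_VQ
  · exact ⟨OO (gq k) (exists_gq k), isAmple_OO _ _, phi k _, phi_nonzero k _, phi_nowhere k _⟩
  · rintro ⟨e, he⟩
    rw [hstr] at he
    exact not_iso_aux e he

end

end Pool.Agent.V1162.Q
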