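import Pool.Agent.Helper198.SchE

/-!
General facts on the projective schemes `V J` (copied from `Helper198`), to avoid long imports.
-/

set_option autoImplicit false

open MvPolynomial AlgebraicGeometry CategoryTheory Limits TopologicalSpace

namespace Pool.Agent.V1162.Q

open Pool.Agent.Helper198.Sch

attribute [local instance] MvPolynomial.gradedAlgebra

section top

lemma irreducibleSpace_of_cover {X : Type*} [TopologicalSpace X] {ι : Type*}
    {U : ι → Type*} [∀ i, TopologicalSpace (U i)] (f : ∀ i, U i → X)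
    (hf : ∀ i, Topology.IsOpenEmbedding (f i)) (hirr : ∀ i, PreirreducibleSpace (U i))
    (hcov : ∀ x, ∃ i, x ∈ Set.range (f i)) (x0 : X) (hx0 : ∀ i, x0 ∈ Set.range (f i)) :
    IrreducibleSpace X := by
  have h1 : PreirreducibleSpace X := by
    apply PreirreducibleSpace.of_forall_nonempty_inter
    rintro A B hA hB ⟨x, hx⟩ ⟨y, hy⟩
    obtain ⟨i, u, rfl⟩ := hcov x
    obtain ⟨j, v, rfl⟩ := hcov y
    have hi := hirr i
    have hj := hirr j
    obtain ⟨u0, hu0⟩ := hx0 i
    have hr : IsOpen (Set.range (f j)) := (hf j).isOpen_range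
    obtain ⟨w, hw1, hw2⟩ := nonempty_preirreducible_inter (X := U i)
      (hA.preimage (hf i).continuous) (hr.preimage (hf i).continuous) ⟨u, hx⟩
      ⟨u0, by rw [Set.mem_preimage, hu0]; exact hx0 j⟩
    obtain ⟨w', hw'⟩ := hw2
    obtain ⟨w2, hw3, hw4⟩ := nonempty_preirreducible_inter (X := U j)
      (hA.preimage (hf j).continuous) (hB.preimage (hf j).continuous)
      ⟨w', by rw [Set.mem_preimage, hw']; exact hw1⟩ ⟨v, hy⟩
    exact ⟨f j w2, hw3, hw4⟩
  exact { toNonempty := ⟨x0⟩ }

end top

variable {σ : Type} {R : Type} [CommRing R]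

lemma isIntegral_of_charts (J : HI σ R) {ι : Type} (e : ι → σ)
    (hcov : ∀ x : V J, ∃ i, x ∈ V.D J (e i)) (hdom : ∀ i, IsDomain (Ch J (e i))) (x0 : V J)
    (hx0 : ∀ i, x0 ∈ V.D J (e i)) : IsIntegral (V J) := by
  have h1 : IrreducibleSpace (V J) := by
    apply irreducibleSpace_of_cover (fun i => V.chart J (e i))
      (fun i => (V.chart J (e i)).isOpenEmbedding) _ _ x0
      (fun i => (V.mem_range_chart J _ x0).2 (hx0 i))
    · intro i
      have := hdom i
      have : IrreducibleSpace (Spec (.of (Ch J (e i)))) := inferInstance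
      infer_instance
    · intro x
      obtain ⟨i, hi⟩ := hcov x
      exact ⟨i, (V.mem_range_chart J _ x).2 hi⟩
  have h2 : IsReduced (V J) := by
    have : ∀ i, IsReduced ((V.coverOf J e hcov).openCover.X i) := by
      intro (i : ι)
      have := hdom i
      change IsReduced (Spec (.of (Ch J (e i))))
      infer_instance
    exact IsReduced.of_openCover _ (V.coverOf J e hcov).openCover
  exact isIntegral_of_irreducibleSpace_of_isReduced _

lemma mem_D_iff (J : HI σ R) (c : σ) (x : V J) :
    x ∈ V.D J c ↔ gen J c ∉ ProjectiveSpectrum.asHomogeneousIdeal (𝒜 := qgrad J.toIdeal) x :=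
  Proj.mem_basicOpen _ _ _

lemma isLocalizationElem_eq (J : HI σ R) (c c' : σ) :
    HomogeneousLocalization.Away.isLocalizationElem (gen_mem J c) (gen_mem J c') =
      frac J c c' := by
  apply HomogeneousLocalization.val_injective
  unfold frac
  change (Localization.mk (gen J c' ^ 1) ⟨gen J c ^ 1, _⟩ : Localization.Away (gen J c)) =
    Localization.mk (gen J c') ⟨gen J c ^ 1, _⟩
  congr 1
  exact pow_one _

lemma chart_mem_D (J : HI σ R) (c c' : σ) (x : Spec (.of (Ch J c))) :
    V.chart J c x ∈ V.D J c' ↔ frac J c c' ∉ x.asIdeal := by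
  have h := Proj.awayι_preimage_basicOpen (qgrad J.toIdeal) (gen_mem J c) one_pos
    (gen_mem J c') one_pos
  rw [isLocalizationElem_eq] at h
  have h2 : x ∈ (Proj.awayι (qgrad J.toIdeal) (gen J c) (gen_mem J c) one_pos ⁻¹ᵁ
      Proj.basicOpen (qgrad J.toIdeal) (gen J c')) ↔ x ∈ PrimeSpectrum.basicOpen (frac J c c') := by
    rw [h]
    exact Iff.rfl
  exact h2

section general

variable {A B : Type} [CommRing A] [CommRing B] {τ υ : Type}
    [SetLike τ A] [SetLike υ B] [AddSubgroupClass τ A] [AddSubgroupClass υ B]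
    {𝒜 : ℕ → τ} {ℬ : ℕ → υ} [GradedRing 𝒜] [GradedRing ℬ] (f : 𝒜 →+*ᵍ ℬ)

lemma away_map_surjective (hf : Function.Surjective f) {i : ℕ} (s : A) (hs : s ∈ 𝒜 i) :
    Function.Surjective (HomogeneousLocalization.Away.map f s) := by
  intro x
  obtain ⟨n, b, hb, rfl⟩ := HomogeneousLocalization.Away.mk_surjective ℬ (f.2 hs) x
  obtain ⟨a, rfl⟩ := hf b
  refine ⟨HomogeneousLocalization.Away.mk 𝒜 hs n (DirectSum.decompose 𝒜 a (n • i)).1
    (DirectSum.decompose 𝒜 a (n • i)).2, ?_⟩
  rw [HomogeneousLocalization.Away.map_mk]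
  congr 1
  rw [f.map_directSumDecompose, DirectSum.decompose_of_mem_same ℬ hb]

lemma isPullback_proj_map
    (hirr : HomogeneousIdeal.irrelevant ℬ ≤
      HomogeneousIdeal.map f (HomogeneousIdeal.irrelevant 𝒜))
    {i : ℕ} (hi : 0 < i) (s : A) (hs : s ∈ 𝒜 i) :
    IsPullback (Spec.map (CommRingCat.ofHom (HomogeneousLocalization.Away.map f s)))
      (Proj.awayι ℬ (f s) (f.2 hs) hi) (Proj.awayι 𝒜 s hs hi) (Proj.map f hirr) := by
  apply IsOpenImmersion.isPullback
  · exact Proj.awayι_comp_map f hirr hi s hs
  · rw [Proj.opensRange_awayι, Proj.opensRange_awayι]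
    exact Proj.map_preimage_basicOpen f hirr s

lemma isClosedImmersion_proj_map_chart
    (hirr : HomogeneousIdeal.irrelevant ℬ ≤
      HomogeneousIdeal.map f (HomogeneousIdeal.irrelevant 𝒜))
    (hf : Function.Surjective f) {i : ℕ} (hi : 0 < i) (s : A) (hs : s ∈ 𝒜 i) :
    IsClosedImmersion (pullback.snd (Proj.map f hirr) (Proj.awayι 𝒜 s hs hi)) := by
  have h := isPullback_proj_map f hirr hi s hs
  have h1 : pullback.snd (Proj.map f hirr) (Proj.awayι 𝒜 s hs hi) =
      h.flip.isoPullback.inv ≫
        Spec.map (CommRingCat.ofHom (HomogeneousLocalization.Away.map f s)) :=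
    (h.flip.isoPullback_inv_snd).symm
  rw [h1, MorphismProperty.cancel_left_of_respectsIso @IsClosedImmersion]
  exact IsClosedImmersion.spec_of_surjective _ (away_map_surjective f hf s hs)

lemma isClosedImmersion_proj_map
    (hirr : HomogeneousIdeal.irrelevant ℬ ≤
      HomogeneousIdeal.map f (HomogeneousIdeal.irrelevant 𝒜))
    (hf : Function.Surjective f) : IsClosedImmersion (Proj.map f hirr) := by
  apply IsZariskiLocalAtTarget.of_openCover (Proj.affineOpenCover 𝒜).openCover
  rintro (⟨i, s⟩ : Σ i : PNat, 𝒜 i)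
  exact isClosedImmersion_proj_map_chart f hirr hf i.2 s.1 s.2

end general

section proj

/-- The graded map from the polynomial ring. -/
noncomputable def quMap (J : HI σ R) : homogeneousSubmodule σ R →+*ᵍ qgrad J.toIdeal where
  toRingHom := Ideal.Quotient.mk J.toIdeal
  map_mem := by
    intro i x hx
    exact mk_mem_qgrad hx

lemma quMap_X (J : HI σ R) (s : σ) : quMap J (X s) = gen J s := rfl

lemma quMap_surjective (J : HI σ R) : Function.Surjective (quMap J) :=
  Ideal.Quotient.mk_surjective

lemma quMap_irr (J : HI σ R) :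
    HomogeneousIdeal.irrelevant (qgrad J.toIdeal) ≤
      HomogeneousIdeal.map (quMap J) (HomogeneousIdeal.irrelevant (homogeneousSubmodule σ R)) := by
  change (HomogeneousIdeal.irrelevant (qgrad J.toIdeal)).toIdeal ≤ _
  refine le_trans (V.irrelevant_le J) ?_
  rw [Ideal.span_le]
  rintro _ ⟨s, rfl⟩
  rw [← quMap_X J s]
  refine Ideal.mem_map_of_mem _ ?_
  exact HomogeneousIdeal.mem_irrelevant_of_mem _ one_pos (isHomogeneous_X R _)

/-- The closed embedding in projective space. -/
noncomputable def emb (J : HI σ R) : V J ⟶ Proj (homogeneousSubmodule σ R) :=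
  Proj.map (quMap J) (quMap_irr J)

instance isClosedImmersion_emb (J : HI σ R) : IsClosedImmersion (emb J) :=
  isClosedImmersion_proj_map _ _ (quMap_surjective J)

lemma emb_str (J : HI σ R) :
    emb J ≫ (Proj.toSpecZero (homogeneousSubmodule σ R) ≫
        Spec.map (CommRingCat.ofHom (algebraMap R (homogeneousSubmodule σ R 0)))) = V.str J := by
  apply (V.cover J).openCover.hom_ext
  intro (c : σ)
  change V.chart J c ≫ _ = V.chart J c ≫ _
  rw [V.chart_str]
  have hX : (X c : MvPolynomial σ R) ∈ homogeneousSubmodule σ R 1 :=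
    isHomogeneous_X R _
  have hle : Submonoid.powers (X c : MvPolynomial σ R) ≤
      (Submonoid.powers (gen J c)).comap (quMap J) := by
    rw [Submonoid.powers_le]
    exact ⟨1, by simp [quMap_X]⟩
  have h1 := V.awayι_comp_map' (quMap J) (quMap_irr J) one_pos (X c) hX
    (gen J c) (gen_mem J c) (quMap_X J c) hle
  let θ : Spec (.of (Ch J c)) ⟶ Spec (.of (HomogeneousLocalization.Away
      (homogeneousSubmodule σ R) (X c))) :=
    Spec.map (CommRingCat.ofHom (HomogeneousLocalization.map (quMap J) hle))
  have h2 : V.chart J c ≫ emb J =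
      θ ≫ Proj.awayι (homogeneousSubmodule σ R) (X c) hX one_pos := h1
  rw [← Category.assoc, h2, Category.assoc, ← Category.assoc (Proj.awayι _ _ _ _),
    Proj.awayι_toSpecZero, ← Spec.map_comp]
  refine (Spec.map_comp _ _).symm.trans ?_
  congr 1

end proj

/-- An algebra which is a polynomial ring on finitely many elements is standard smooth of the
right relative dimension. -/
lemma isStandardSmooth_of_bijective {R : Type*} {S : Type*} [CommRing R] [CommRing S]
    [Algebra R S] {ι : Type} [Finite ι] (v : ι → S)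
    (hv : Function.Bijective (aeval v : MvPolynomial ι R →ₐ[R] S)) :
    Algebra.IsStandardSmoothOfRelativeDimension (Nat.card ι) R S := by
  classical
  let P0 : Algebra.PreSubmersivePresentation R S ι PEmpty.{1} :=
  { toGenerators := .ofSurjective v hv.2
    relation := PEmpty.elim
    span_range_relation_eq_ker := by
      rw [Set.range_eq_empty, Ideal.span_empty]
      symm
      rw [eq_bot_iff]
      intro z hz
      have h1 : (aeval v : MvPolynomial ι R →ₐ[R] S) z = 0 := hz
      have h2 : z = 0 := hv.1 (by rw [h1, map_zero])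
      rw [h2]
      exact Ideal.zero_mem _
    map := PEmpty.elim
    map_inj := Function.injective_of_subsingleton _ }
  let P : Algebra.SubmersivePresentation R S ι PEmpty.{1} :=
  { __ := P0
    jacobian_isUnit := by
      rw [Algebra.PreSubmersivePresentation.jacobian_eq_jacobiMatrix_det, Matrix.det_isEmpty,
        map_one]
      exact isUnit_one }
  refine P.isStandardSmoothOfRelativeDimension ?_
  simp [Algebra.Presentation.dimension]

set_option backward.isDefEq.respectTransparency.types false in
lemma smooth_of_charts {k : Type} [Field k] (J : HI σ k) (n : ℕ) {ι : Type} (e : ι → σ)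
    (hcov : ∀ x : V J, ∃ i, x ∈ V.D J (e i))
    (h : ∀ i, Algebra.IsStandardSmoothOfRelativeDimension n k (Ch J (e i))) :
    SmoothOfRelativeDimension n (V.str J) := by
  apply IsZariskiLocalAtSource.of_openCover (V.coverOf J e hcov).openCover
  intro (t : ι)
  change SmoothOfRelativeDimension n (V.chart J (e t) ≫ V.str J)
  rw [V.chart_str, HasRingHomProperty.Spec_iff (P := @SmoothOfRelativeDimension n)]
  apply RingHom.locally_of
  · exact RingHom.isStandardSmoothOfRelativeDimension_respectsIso
  · have h2 := h t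
    exact (RingHom.isStandardSmoothOfRelativeDimension_algebraMap n).2 h2

end Pool.Agent.V1162.Q
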