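import Pool.Agent.V1162.Q.Gen

/-!
The quadric threefold `x₀² + x₁ x₂ + x₃ x₄ = 0`: charts, smoothness, integrality.
-/

set_option autoImplicit false

open MvPolynomial AlgebraicGeometry CategoryTheory Limits TopologicalSpace

namespace Pool.Agent.V1162.Q

open Pool.Agent.Helper198.Sch

attribute [local instance] MvPolynomial.gradedAlgebra

section

variable (k : Type) [Field k]

/-- the quadratic form `x₀² + x₁ x₂ + x₃ x₄` -/
noncomputable def qf : MvPolynomial (Fin 5) k := X 0 ^ 2 + X 1 * X 2 + X 3 * X 4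

theorem qf_hom : (qf k).IsHomogeneous 2 :=
  (((isHomogeneous_X k _).pow 2).add ((isHomogeneous_X k _).mul (isHomogeneous_X k _))).add
    ((isHomogeneous_X k _).mul (isHomogeneous_X k _))

/-- the ideal of the quadric -/
noncomputable def JQ : HI (Fin 5) k := HI.ofSet {qf k} (by rintro f rfl; exact ⟨2, qf_hom k⟩)

/-- the variables of the four charts: `x_c ≠ 0`, `x_p` is eliminated -/
def cc : Fin 4 → Fin 5 := ![1, 2, 3, 4]
def pp : Fin 4 → Fin 5 := ![2, 1, 4, 3]
def aa : Fin 4 → Fin 5 := ![3, 3, 1, 1]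
def bb : Fin 4 → Fin 5 := ![4, 4, 2, 2]

/-- the coordinates of a point of the chart -/
def uu (t : Fin 4) {E : Type*} [CommRing E] (v : Fin 3 → E) (s : Fin 5) : E :=
  if s = 0 then v 0 else if s = cc t then 1 else if s = pp t then -(v 0 ^ 2 + v 1 * v 2) else
    if s = aa t then v 1 else v 2

theorem uu_rel (t : Fin 4) {E : Type*} [CommRing E] (v : Fin 3 → E) :
    uu t v 0 ^ 2 + uu t v 1 * uu t v 2 + uu t v 3 * uu t v 4 = 0 := by
  fin_cases t <;> simp [uu, cc, pp, aa]

theorem uu_zero (t : Fin 4) {E : Type*} [CommRing E] (v : Fin 3 → E) : uu t v 0 = v 0 := by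
  simp [uu]

theorem uu_cc (t : Fin 4) {E : Type*} [CommRing E] (v : Fin 3 → E) : uu t v (cc t) = 1 := by
  fin_cases t <;> simp [uu, cc]

theorem uu_aa (t : Fin 4) {E : Type*} [CommRing E] (v : Fin 3 → E) : uu t v (aa t) = v 1 := by
  fin_cases t <;> simp [uu, cc, pp, aa]

theorem uu_bb (t : Fin 4) {E : Type*} [CommRing E] (v : Fin 3 → E) : uu t v (bb t) = v 2 := by
  fin_cases t <;> simp [uu, cc, pp, aa, bb]

theorem aeval_qf {E : Type*} [CommRing E] [Algebra k E] (u : Fin 5 → E) :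
    aeval u (qf k) = u 0 ^ 2 + u 1 * u 2 + u 3 * u 4 := by
  simp [qf]

variable {k}

theorem frac_rel (c : Fin 5) :
    frac (JQ k) c 0 ^ 2 + frac (JQ k) c 1 * frac (JQ k) c 2 +
      frac (JQ k) c 3 * frac (JQ k) c 4 = 0 := by
  rw [← aeval_qf k (frac (JQ k) c)]
  exact aeval_frac_eq_zero (JQ k) c _ (mem_ofSet rfl)

theorem aeval_JQ {E : Type*} [CommRing E] [Algebra k E] (u : Fin 5 → E)
    (h : u 0 ^ 2 + u 1 * u 2 + u 3 * u 4 = 0) : ∀ f ∈ (JQ k).toIdeal, aeval u f = 0 :=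
  aeval_ofSet u (by rintro f rfl; rw [aeval_qf, h])

/-- the coordinates of the chart -/
noncomputable def vv (t : Fin 4) : Fin 3 → Ch (JQ k) (cc t) :=
  ![frac (JQ k) (cc t) 0, frac (JQ k) (cc t) (aa t), frac (JQ k) (cc t) (bb t)]

theorem pw_rel (t : Fin 4) {E : Type*} [CommRing E] (w : Fin 5 → E)
    (h : w 0 ^ 2 + w 1 * w 2 + w 3 * w 4 = 0) (h1 : w (cc t) = 1) :
    w (pp t) = -(w 0 ^ 2 + w (aa t) * w (bb t)) := by
  fin_cases t
  · change w 1 = 1 at h1
    change w 2 = -(w 0 ^ 2 + w 3 * w 4)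
    rw [h1] at h
    linear_combination h
  · change w 2 = 1 at h1
    change w 1 = -(w 0 ^ 2 + w 3 * w 4)
    rw [h1] at h
    linear_combination h
  · change w 3 = 1 at h1
    change w 4 = -(w 0 ^ 2 + w 1 * w 2)
    rw [h1] at h
    linear_combination h
  · change w 4 = 1 at h1
    change w 3 = -(w 0 ^ 2 + w 1 * w 2)
    rw [h1] at h
    linear_combination h

theorem cases5 (t : Fin 4) (s : Fin 5) : s = 0 ∨ s = cc t ∨ s = pp t ∨ s = aa t ∨ s = bb t := by
  revert s t
  decide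

theorem uu_vv (t : Fin 4) (s : Fin 5) : uu t (vv (k := k) t) s = frac (JQ k) (cc t) s := by
  have h := frac_rel (k := k) (cc t)
  have h1 := frac_self (JQ k) (cc t)
  have hp := pw_rel t (frac (JQ k) (cc t)) h h1
  have hs := cases5 t s
  by_cases h0 : s = 0
  · rw [h0, uu_zero]; rfl
  by_cases h2 : s = cc t
  · rw [h2, uu_cc, h1]
  by_cases h3 : s = pp t
  · rw [uu, if_neg h0, if_neg h2, if_pos h3, h3, hp]; rfl
  by_cases h4 : s = aa t
  · rw [h4, uu_aa]; rfl
  have h5 : s = bb t := by tauto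
  rw [h5, uu_bb]; rfl

/-- the inverse of the chart -/
noncomputable def LL (t : Fin 4) : Ch (JQ k) (cc t) →ₐ[k] MvPolynomial (Fin 3) k :=
  chLift (JQ k) (cc t) (uu t X) (uu_cc t _) (aeval_JQ _ (uu_rel t _))

theorem LL_frac (t : Fin 4) (s : Fin 5) : LL (k := k) t (frac (JQ k) (cc t) s) = uu t X s :=
  chLift_frac _ _ _ _ _ s

theorem LL_vv (t : Fin 4) (i : Fin 3) : LL (k := k) t (vv t i) = X i := by
  fin_cases i
  · exact (LL_frac t 0).trans (uu_zero t _)
  · exact (LL_frac t (aa t)).trans (uu_aa t _)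
  · exact (LL_frac t (bb t)).trans (uu_bb t _)

theorem LL_aeval (t : Fin 4) (f : MvPolynomial (Fin 3) k) : LL t (aeval (vv t) f) = f := by
  have h : ((LL t).comp (aeval (vv t))) = AlgHom.id k (MvPolynomial (Fin 3) k) := by
    apply MvPolynomial.algHom_ext
    intro i
    rw [AlgHom.comp_apply, aeval_X, LL_vv]
    rfl
  exact DFunLike.congr_fun h f

theorem map_uu (t : Fin 4) {E F : Type*} [CommRing E] [CommRing F] (φ : E →+* F) (v : Fin 3 → E)
    (s : Fin 5) : φ (uu t v s) = uu t (fun i => φ (v i)) s := by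
  unfold uu
  split_ifs <;> simp

theorem aeval_LL (t : Fin 4) (x : Ch (JQ k) (cc t)) : aeval (vv t) (LL t x) = x := by
  have h : ((aeval (vv t)).comp (LL t)) = AlgHom.id k (Ch (JQ k) (cc t)) := by
    apply ch_algHom_ext
    intro s
    rw [AlgHom.comp_apply, LL_frac]
    have h1 := map_uu t (aeval (vv t) : MvPolynomial (Fin 3) k →ₐ[k] Ch (JQ k) (cc t)).toRingHom
      X s
    refine h1.trans ?_
    have h2 : (fun i => (aeval (vv t) : MvPolynomial (Fin 3) k →ₐ[k] Ch (JQ k) (cc t)).toRingHom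
        (X i)) = vv t := by
      funext i
      exact aeval_X _ _
    rw [h2, uu_vv]
    rfl
  exact DFunLike.congr_fun h x

/-- the chart rings are polynomial rings -/
noncomputable def chE (t : Fin 4) : MvPolynomial (Fin 3) k ≃ₐ[k] Ch (JQ k) (cc t) :=
  AlgEquiv.ofAlgHom (aeval (vv t)) (LL t)
    (AlgHom.ext fun x => aeval_LL t x) (AlgHom.ext fun x => LL_aeval t x)

theorem chE_apply (t : Fin 4) (f : MvPolynomial (Fin 3) k) : chE t f = aeval (vv t) f := rfl

theorem ch_domain (t : Fin 4) : IsDomain (Ch (JQ k) (cc t)) :=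
  (chE t).symm.toMulEquiv.isDomain _

theorem ch_smooth (t : Fin 4) :
    Algebra.IsStandardSmoothOfRelativeDimension 3 k (Ch (JQ k) (cc t)) := by
  have h := isStandardSmooth_of_bijective (R := k) (vv (k := k) t) (chE t).bijective
  rwa [Nat.card_eq_fintype_card, Fintype.card_fin] at h

/-- the four charts cover the quadric -/
theorem exists_chart (x : V (JQ k)) : ∃ t, x ∈ V.D (JQ k) (cc t) := by
  by_contra hcon
  push Not at hcon
  obtain ⟨c, hc⟩ := V.exists_mem_D (JQ k) x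
  have hmem : ∀ t, gen (JQ k) (cc t) ∈
      ProjectiveSpectrum.asHomogeneousIdeal (𝒜 := qgrad (JQ k).toIdeal) x := by
    intro t
    have := hcon t
    rw [mem_D_iff, not_not] at this
    exact this
  have hrel : gen (JQ k) 0 ^ 2 + gen (JQ k) 1 * gen (JQ k) 2 + gen (JQ k) 3 * gen (JQ k) 4 = 0 := by
    have h : Ideal.Quotient.mk (JQ k).toIdeal (qf k) = 0 :=
      Ideal.Quotient.eq_zero_iff_mem.2 (mem_ofSet rfl)
    rw [qf, map_add, map_add, map_mul, map_mul, map_pow] at h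
    exact h
  have h0 : gen (JQ k) 0 ∈ ProjectiveSpectrum.asHomogeneousIdeal (𝒜 := qgrad (JQ k).toIdeal) x := by
    have h1 : gen (JQ k) 0 ^ 2 =
        -(gen (JQ k) 1 * gen (JQ k) 2 + gen (JQ k) 3 * gen (JQ k) 4) := by
      linear_combination hrel
    have h2 : gen (JQ k) 0 ^ 2 ∈
        (ProjectiveSpectrum.asHomogeneousIdeal (𝒜 := qgrad (JQ k).toIdeal) x).toIdeal := by
      rw [h1]
      apply (Ideal.neg_mem_iff _).2
      exact add_mem (Ideal.mul_mem_right _ _ (hmem 0)) (Ideal.mul_mem_right _ _ (hmem 2))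
    exact x.isPrime.mem_of_pow_mem _ h2
  rw [mem_D_iff] at hc
  apply hc
  fin_cases c
  · exact h0
  · exact hmem 0
  · exact hmem 1
  · exact hmem 2
  · exact hmem 3

theorem frac_ne_zero (t : Fin 4) (s : Fin 5) : frac (JQ k) (cc t) s ≠ 0 := by
  intro h
  have h1 := congrArg (LL t) h
  rw [LL_frac, map_zero] at h1
  have h2 : aeval (![1, 1, 0] : Fin 3 → k) (uu t (X : Fin 3 → MvPolynomial (Fin 3) k) s) = 0 := by
    rw [h1, map_zero]
  have h2' : aeval (![0, 1, 1] : Fin 3 → k) (uu t (X : Fin 3 → MvPolynomial (Fin 3) k) s) = 0 := by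
    rw [h1, map_zero]
  unfold uu at h2 h2'
  split_ifs at h2 h2' <;> simp at h2 h2'

theorem exists_generic : ∃ x : V (JQ k), ∀ t, x ∈ V.D (JQ k) (cc t) := by
  have hd := ch_domain (k := k) 0
  let η : Spec (.of (Ch (JQ k) (cc 0))) := (⟨⊥, Ideal.isPrime_bot⟩ : PrimeSpectrum _)
  refine ⟨V.chart (JQ k) (cc 0) η, ?_⟩
  intro t
  rw [chart_mem_D]
  intro h
  exact frac_ne_zero 0 (cc t) ((Submodule.mem_bot _).1 h)

theorem isIntegral_VQ : IsIntegral (V (JQ k)) := by
  obtain ⟨x, hx⟩ := exists_generic (k := k)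
  exact isIntegral_of_charts (JQ k) cc exists_chart ch_domain x hx

theorem smooth_VQ : SmoothOfRelativeDimension 3 (V.str (JQ k)) :=
  smooth_of_charts (JQ k) 3 cc exists_chart ch_smooth

end

end Pool.Agent.V1162.Q
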