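import Pool.Agent.V1162.Q.P3
import Pool.Agent.V1162.Q.Quad
import Pool.Agent.V1162.Q.Alg

/-!
The quadric threefold in characteristic two is not isomorphic to projective space: it has fewer
vector fields.
-/

set_option autoImplicit false

open AlgebraicGeometry CategoryTheory TopologicalSpace MvPolynomial

namespace Pool.Agent.V1162.Q

open Pool.Agent.Helper922.VS HomogeneousLocalization Pool.Agent.Helper198.Sch

attribute [local instance] MvPolynomial.gradedAlgebra

section chart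

variable (k : Type) [Field k]

/-- the grading of the coordinate ring of the quadric -/
noncomputable abbrev QA : ℕ → Submodule k (MvPolynomial (Fin 5) k ⧸ (JQ k).toIdeal) :=
  qgrad (JQ k).toIdeal

/-- the coordinates -/
noncomputable def gq (s : Fin 5) : QA k 1 := ⟨gen (JQ k) s, gen_mem (JQ k) s⟩

/-- the structure morphism -/
noncomputable abbrev pQ : Proj (QA k) ⟶ Spec (CommRingCat.of k) := H944U.toSpecK (QA k)

/-- the charts -/
noncomputable def UQ (t : Fin 4) : (Proj (QA k)).Opens :=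
  Proj.basicOpen (QA k) (gq k (cc t) : MvPolynomial (Fin 5) k ⧸ (JQ k).toIdeal)

variable {k}

theorem frac_section (c a : Fin 5) :
    (Proj.awayToSection (QA k) (gen (JQ k) c)).hom (frac (JQ k) c a) = fr (gq k a) (gq k c) := by
  have h : (frac (JQ k) c a : Away (QA k) (gen (JQ k) c)) =
      (HomogeneousLocalization.mk ⟨1, gq k a, gq k c, ⟨1, by simp [gq]⟩⟩ :
        Away (QA k) (gen (JQ k) c)) := by
    apply HomogeneousLocalization.val_injective
    change (Localization.mk (gen (JQ k) a) ⟨gen (JQ k) c ^ 1, _⟩ : Localization.Away _) =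
      Localization.mk (gen (JQ k) a) ⟨gen (JQ k) c, _⟩
    congr 1
    apply Subtype.ext
    exact pow_one _
  rw [h]
  rfl

/-- the coordinates on the charts -/
noncomputable def bq (t : Fin 4) : MvPolynomial (Fin 3) k →+* Reg (Proj (QA k)) (UQ k t) :=
  (Proj.awayToSection (QA k) (gen (JQ k) (cc t))).hom.comp
    ((chE (k := k) t : MvPolynomial (Fin 3) k →ₐ[k] Ch (JQ k) (cc t)) :
      MvPolynomial (Fin 3) k →+* Ch (JQ k) (cc t))

theorem bq_bijective (t : Fin 4) : Function.Bijective (bq (k := k) t) := by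
  have h2 : IsIso (Proj.awayToSection (QA k) (gen (JQ k) (cc t))) := by
    have := (Proj.basicOpenIsoAway (QA k) (gen (JQ k) (cc t)) (gen_mem _ _) one_pos).isIso_hom
    rwa [Proj.basicOpenIsoAway_hom] at this
  exact (ConcreteCategory.bijective_of_isIso
    (Proj.awayToSection (QA k) (gen (JQ k) (cc t)))).comp (chE t).bijective

theorem bq_C (t : Fin 4) (c : k) : bq t (C c) = baseHom (pQ k) (UQ k t) c := by
  have h1 := baseHom_basicOpen (𝒜 := QA k) (gen_mem (JQ k) (cc t)) one_pos c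
  refine Eq.trans ?_ h1.symm
  change (Proj.awayToSection (QA k) (gen (JQ k) (cc t))).hom (chE t (C c)) = _
  rw [show chE t (C c) = algebraMap k (Ch (JQ k) (cc t)) c from (chE t).commutes c]
  rfl

theorem bq_X0 (t : Fin 4) : bq t (X 0) = fr (gq k 0) (gq k (cc t)) := by
  change (Proj.awayToSection (QA k) (gen (JQ k) (cc t))).hom (chE t (X 0)) = _
  rw [chE_apply, aeval_X]
  exact frac_section _ _

theorem bq_X1 (t : Fin 4) : bq t (X 1) = fr (gq k (aa t)) (gq k (cc t)) := by
  change (Proj.awayToSection (QA k) (gen (JQ k) (cc t))).hom (chE t (X 1)) = _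
  rw [chE_apply, aeval_X]
  exact frac_section _ _

theorem bq_X2 (t : Fin 4) : bq t (X 2) = fr (gq k (bb t)) (gq k (cc t)) := by
  change (Proj.awayToSection (QA k) (gen (JQ k) (cc t))).hom (chE t (X 2)) = _
  rw [chE_apply, aeval_X]
  exact frac_section _ _

theorem bq_gg (t : Fin 4) : bq t (gg k) = fr (gq k (pp t)) (gq k (cc t)) := by
  change (Proj.awayToSection (QA k) (gen (JQ k) (cc t))).hom (chE t (gg k)) = _
  have h : chE t (gg k) = frac (JQ k) (cc t) (pp t) := by
    rw [← uu_vv, chE_apply]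
    have h1 : uu t (vv (k := k) t) (pp t) = -(vv t 0 ^ 2 + vv t 1 * vv t 2) := by
      unfold uu
      rw [if_neg (by fin_cases t <;> decide), if_neg (by fin_cases t <;> decide), if_pos rfl]
    rw [h1]
    simp [gg]
  rw [h]
  exact frac_section _ _

end chart

section analysis

variable {k : Type} [Field k]

variable (k) in
/-- the intersection of two charts -/
noncomputable def WQ : (Proj (QA k)).Opens := UQ k 0 ⊓ UQ k 1

theorem WQ_le0 : WQ k ≤ UQ k 0 := inf_le_left

theorem WQ_le1 : WQ k ≤ UQ k 1 := inf_le_right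

theorem WQ_ne : ∃ x : Proj (QA k), x ∈ WQ k := by
  obtain ⟨x, hx⟩ := exists_generic (k := k)
  exact ⟨x, hx 0, hx 1⟩

noncomputable instance algW : Algebra k (Reg (Proj (QA k)) (WQ k)) :=
  (baseHom (pQ k) (WQ k)).toAlgebra

/-- the coordinates on the intersection -/
noncomputable def rq (t : Fin 4) (h : WQ k ≤ UQ k t) :
    MvPolynomial (Fin 3) k →ₐ[k] Reg (Proj (QA k)) (WQ k) :=
  { (res h).comp (bq t) with
    commutes' := by
      intro c
      change rs h (bq t (C c)) = baseHom (pQ k) (WQ k) c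
      rw [bq_C, ← baseHom_rs] }

theorem rq_apply (t : Fin 4) (h : WQ k ≤ UQ k t) (f : MvPolynomial (Fin 3) k) :
    rq t h f = rs h (bq t f) := rfl

theorem rq_injective : Function.Injective (rq 0 (WQ_le0 (k := k))) := by
  have hi : IsIntegral (Proj (QA k)) := isIntegral_VQ (k := k)
  exact (rs_injective WQ_le0 WQ_ne).comp (bq_bijective 0).1

theorem rq_rel (i : Fin 3) : rq 0 (WQ_le0 (k := k)) (gg k) * rq 1 WQ_le1 (X i) =
    rq 0 WQ_le0 (X i) := by
  rw [rq_apply, rq_apply, rq_apply, bq_gg]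
  fin_cases i
  · change rs _ (fr (gq k 2) (gq k 1)) * rs _ (bq 1 (X 0)) = rs _ (bq 0 (X 0))
    rw [bq_X0, bq_X0]
    exact fr_mul (gq k 0) (gq k 2) (gq k 1) (WQ k) WQ_le1 WQ_le0
  · change rs _ (fr (gq k 2) (gq k 1)) * rs _ (bq 1 (X 1)) = rs _ (bq 0 (X 1))
    rw [bq_X1, bq_X1]
    exact fr_mul (gq k 3) (gq k 2) (gq k 1) (WQ k) WQ_le1 WQ_le0
  · change rs _ (fr (gq k 2) (gq k 1)) * rs _ (bq 1 (X 2)) = rs _ (bq 0 (X 2))
    rw [bq_X2, bq_X2]
    exact fr_mul (gq k 4) (gq k 2) (gq k 1) (WQ k) WQ_le1 WQ_le0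

theorem rq_gg : rq 0 (WQ_le0 (k := k)) (gg k) * rq 1 WQ_le1 (gg k) = 1 := by
  rw [rq_apply, rq_apply, bq_gg, bq_gg]
  have h := fr_mul (gq k 1) (gq k 2) (gq k 1) (WQ k) WQ_le1 WQ_le0
  refine h.trans ?_
  rw [fr_self]
  exact map_one (res _)

/-- the values of a vector field on the coordinates -/
noncomputable def cval (T : VectorField (pQ k) ⊤) (t : Fin 4) (i : Fin 3) :
    MvPolynomial (Fin 3) k :=
  (RingEquiv.ofBijective (bq (k := k) t) (bq_bijective t)).symm (T.D (UQ k t) le_top (bq t (X i)))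

theorem bq_cval (T : VectorField (pQ k) ⊤) (t : Fin 4) (i : Fin 3) :
    bq t (cval T t i) = T.D (UQ k t) le_top (bq t (X i)) :=
  (RingEquiv.ofBijective (bq (k := k) t) (bq_bijective t)).apply_symm_apply _

theorem rq_cval (T : VectorField (pQ k) ⊤) (t : Fin 4) (h : WQ k ≤ UQ k t) (i : Fin 3) :
    T.D (WQ k) le_top (rq t h (X i)) = rq t h (cval T t i) := by
  rw [rq_apply, rq_apply, bq_cval]
  exact T.restrict _ _ le_top h _

theorem D_one (T : VectorField (pQ k) ⊤) (V : (Proj (QA k)).Opens) : T.D V le_top 1 = 0 := by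
  have h := T.const V le_top 1
  rwa [map_one] at h

theorem D_neg (T : VectorField (pQ k) ⊤) (V : (Proj (QA k)).Opens) (a : Reg _ V) :
    T.D V le_top (-a) = -T.D V le_top a := by
  have h := T.add V le_top (-a) a
  rw [neg_add_cancel, T.D_zero] at h
  exact eq_neg_of_add_eq_zero_left h.symm

theorem cval_rel [CharP k 2] (T : VectorField (pQ k) ⊤) (i : Fin 3) :
    rq 0 WQ_le0 (cval T 0 i) = rq 0 WQ_le0 (gg k) * rq 1 WQ_le1 (cval T 1 i) +
      rq 0 WQ_le0 (X i) * (rq 0 WQ_le0 (X 1) * rq 1 WQ_le1 (cval T 1 2) +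
        rq 0 WQ_le0 (X 2) * rq 1 WQ_le1 (cval T 1 1)) := by
  have h2 : (2 : Reg (Proj (QA k)) (WQ k)) = 0 := two_reg (pQ k) _
  set u := rq 0 (WQ_le0 (k := k)) (gg k) with hu
  set w := rq 1 (WQ_le1 (k := k)) (gg k) with hw
  have huw : u * w = 1 := rq_gg
  have e1 : T.D (WQ k) le_top (u * w) = 0 := by rw [huw, D_one]
  rw [T.leibniz] at e1
  have e2 : w = -(rq 1 WQ_le1 (X 0) * rq 1 WQ_le1 (X 0) +
      rq 1 WQ_le1 (X 1) * rq 1 WQ_le1 (X 2)) := by
    rw [hw, gg, map_neg, map_add, map_mul, map_pow, pow_two]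
  have e3 : T.D (WQ k) le_top w = -(rq 1 WQ_le1 (X 1) * rq 1 WQ_le1 (cval T 1 2) +
      rq 1 WQ_le1 (X 2) * rq 1 WQ_le1 (cval T 1 1)) := by
    rw [e2, D_neg, T.add, T.leibniz, T.leibniz, rq_cval, rq_cval, rq_cval]
    linear_combination (-(rq 1 WQ_le1 (X 0) * rq 1 WQ_le1 (cval T 1 0))) * h2
  have e4 : T.D (WQ k) le_top u = u * (rq 0 WQ_le0 (X 1) * rq 1 WQ_le1 (cval T 1 2) +
      rq 0 WQ_le0 (X 2) * rq 1 WQ_le1 (cval T 1 1)) := by
    rw [e3] at e1
    rw [← rq_rel 1, ← rq_rel 2]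
    linear_combination u * e1 - (T.D (WQ k) le_top u) * huw
  rw [← rq_cval]
  conv_lhs => rw [← rq_rel i, T.leibniz, rq_cval, ← hu, e4]
  rw [← rq_rel i, ← hu]
  ring

/-- a vector field on the quadric is determined by ten coefficients -/
theorem vf_quad_zero [CharP k 2] [Infinite k] (T : VectorField (pQ k) ⊤)
    (h1 : ∀ i, coeff 0 (cval T 0 i) = 0) (h2 : ∀ i, coeff 0 (cval T 1 i) = 0)
    (h3 : ∀ j, coeff (Finsupp.single j 1) (cval T 0 0) = 0)
    (h4 : coeff (Finsupp.single 1 1) (cval T 0 1) = 0) (V : (Proj (QA k)).Opens) (a : Reg _ V) :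
    T.D V le_top a = 0 := by
  obtain ⟨k0, k1, k2⟩ := alg_main (rq 0 WQ_le0) (rq 1 WQ_le1) rq_rel rq_injective
    (cval_rel T 0) (cval_rel T 1) (cval_rel T 2) (h1 0) (h1 1) (h1 2) (h2 0) (h2 1) (h2 2)
    (h3 0) (h3 1) (h3 2) h4
  have h5 : ∀ i, T.D (UQ k 0) le_top (bq 0 (X i)) = 0 := by
    intro i
    rw [← bq_cval]
    fin_cases i
    · exact (congrArg (bq 0) k0).trans (map_zero _)
    · exact (congrArg (bq 0) k1).trans (map_zero _)
    · exact (congrArg (bq 0) k2).trans (map_zero _)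
  have h6 : ∀ f : MvPolynomial (Fin 3) k, T.D (UQ k 0) le_top (bq 0 f) = 0 := by
    intro f
    induction f using MvPolynomial.induction_on with
    | C c => rw [bq_C]; exact T.const _ _ _
    | add f g hf hg => rw [map_add, T.add, hf, hg, add_zero]
    | mul_X f i hf => rw [map_mul, T.leibniz, hf, h5, mul_zero, mul_zero, add_zero]
  have hi : IsIntegral (Proj (QA k)) := isIntegral_VQ (k := k)
  have hU : IsAffineOpen (UQ k 0) := Proj.isAffineOpen_basicOpen (QA k) _ (gq k (cc 0)).2 one_pos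
  refine vf_zero (U := UQ k 0) hU ?_ ?_ V a
  · obtain ⟨x, hx⟩ := WQ_ne (k := k)
    exact ⟨x, hx.1⟩
  · intro b
    obtain ⟨f, rfl⟩ := (bq_bijective 0).2 b
    exact h6 f

end analysis

section notiso

variable {k : Type} [Field k] [IsAlgClosed k] [CharP k 2]
  (e : Proj (QA k) ≅ Proj (homogeneousSubmodule (Fin 4) k))
  (he : e.hom ≫ H944U.toSpecK (homogeneousSubmodule (Fin 4) k) = pQ k)

/-- the transported family -/
noncomputable def TM (M : Fin 3 → Fin 4 → k) : VectorField (pQ k) ⊤ := trv e he (FM M)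

theorem TM_add (M M' : Fin 3 → Fin 4 → k) (V : (Proj (QA k)).Opens) (a : Reg _ V) :
    (TM e he (M + M')).D V le_top a = (TM e he M).D V le_top a + (TM e he M').D V le_top a := by
  apply (pb_bijective e V).1
  rw [map_add]
  exact (pb_trv e he _ V a).trans ((FM_add M M' _ _).trans
    (congrArg₂ (· + ·) (pb_trv e he _ V a) (pb_trv e he _ V a)).symm)

theorem TM_smul (c : k) (M : Fin 3 → Fin 4 → k) (V : (Proj (QA k)).Opens) (a : Reg _ V) :
    (TM e he (c • M)).D V le_top a = baseHom (pQ k) V c * (TM e he M).D V le_top a := by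
  apply (pb_bijective e V).1
  rw [map_mul, pb_baseHom e he]
  exact (pb_trv e he _ V a).trans ((FM_smul c M _ _).trans
    (congrArg₂ (· * ·) rfl (pb_trv e he _ V a)).symm)

/-- the values on the coordinates, as a linear map -/
noncomputable def cvl (t : Fin 4) (i : Fin 3) :
    (Fin 3 → Fin 4 → k) →ₗ[k] MvPolynomial (Fin 3) k where
  toFun M := cval (TM e he M) t i
  map_add' M M' := by
    apply (bq_bijective t).1
    rw [map_add, bq_cval, bq_cval, bq_cval, TM_add]
  map_smul' c M := by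
    apply (bq_bijective t).1
    rw [RingHom.id_apply, smul_eq_C_mul, map_mul, bq_C, bq_cval, bq_cval, TM_smul]

/-- ten linear functionals -/
noncomputable def fnl : Fin 10 → (Fin 3 → Fin 4 → k) →ₗ[k] k :=
  ![lcoeff k 0 ∘ₗ cvl e he 0 0, lcoeff k 0 ∘ₗ cvl e he 0 1, lcoeff k 0 ∘ₗ cvl e he 0 2,
    lcoeff k 0 ∘ₗ cvl e he 1 0, lcoeff k 0 ∘ₗ cvl e he 1 1, lcoeff k 0 ∘ₗ cvl e he 1 2,
    lcoeff k (Finsupp.single 0 1) ∘ₗ cvl e he 0 0, lcoeff k (Finsupp.single 1 1) ∘ₗ cvl e he 0 0,
    lcoeff k (Finsupp.single 2 1) ∘ₗ cvl e he 0 0, lcoeff k (Finsupp.single 1 1) ∘ₗ cvl e he 0 1]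

include he in
theorem not_iso_aux : False := by
  have h1 : LinearMap.ker (LinearMap.pi (fnl e he)) ≠ ⊥ := by
    apply LinearMap.ker_ne_bot_of_finrank_lt
    simp [Module.finrank_pi_fintype]
  obtain ⟨M, hM, hM0⟩ := Submodule.exists_mem_ne_zero_of_ne_bot h1
  apply hM0
  have h2 : ∀ j, fnl e he j M = 0 := by
    intro j
    exact congrFun hM j
  apply FM_inj M
  apply eq_zero_of_trv e he (FM M)
  have : Infinite k := inferInstance
  apply vf_quad_zero (TM e he M)
  · intro i
    fin_cases i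
    · exact h2 0
    · exact h2 1
    · exact h2 2
  · intro i
    fin_cases i
    · exact h2 3
    · exact h2 4
    · exact h2 5
  · intro i
    fin_cases i
    · exact h2 6
    · exact h2 7
    · exact h2 8
  · exact h2 9

end notiso

end Pool.Agent.V1162.Q
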