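import Pool.Agent.V1162.Q.Trans

/-!
A linear family of vector fields on projective three-space.
-/

set_option autoImplicit false

open AlgebraicGeometry CategoryTheory TopologicalSpace MvPolynomial

namespace Pool.Agent.V1162.Q

open Pool.Agent.Helper922.VS HomogeneousLocalization

attribute [local instance] MvPolynomial.gradedAlgebra

section deriv

variable {k : Type} [Field k]

theorem mul_pderiv_mem {σ : Type} {u : MvPolynomial σ k} (hu : u.IsHomogeneous 1) (s : σ)
    (n : ℕ) {f : MvPolynomial σ k} (hf : f.IsHomogeneous n) :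
    (u * pderiv s f).IsHomogeneous n := by
  rcases n with _ | n
  · have h1 : f = C (coeff 0 f) := by
      rw [← totalDegree_eq_zero_iff_eq_C]
      exact (totalDegree_zero_iff_isHomogeneous σ).2 hf
    rw [h1, pderiv_C, mul_zero]
    exact isHomogeneous_zero _ _ _
  · have h1 := hu.mul (hf.pderiv (i := s))
    rw [Nat.add_sub_cancel, add_comm] at h1
    exact h1

theorem lder_add {A : Type} [CommRing A] [Algebra k A] (N : Submonoid A)
    (D D₁ D₂ : Derivation k A A) (h : ∀ a, D a = D₁ a + D₂ a) (z : Localization N) :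
    lder N D z = lder N D₁ z + lder N D₂ z := by
  induction z using Localization.induction_on with
  | H z =>
    obtain ⟨a, s⟩ := z
    rw [lder_mk, lder_mk, lder_mk, Localization.add_mk_self, h, h]
    congr 1
    ring

theorem lder_mul {A : Type} [CommRing A] [Algebra k A] (N : Submonoid A)
    (D D₁ : Derivation k A A) (c : A) (h : ∀ a, D a = c * D₁ a) (z : Localization N) :
    lder N D z = algebraMap A (Localization N) c * lder N D₁ z := by
  have h1 := lder_rel N D D₁ 1 c (by intro a; rw [one_mul]; exact h a) z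
  rw [map_one, one_mul] at h1
  exact h1

/-- the linear form with the coefficients `M l` -/
noncomputable def lf (M : Fin 3 → Fin 4 → k) (l : Fin 3) : MvPolynomial (Fin 4) k :=
  ∑ i, C (M l i) * X i

theorem lf_hom (M : Fin 3 → Fin 4 → k) (l : Fin 3) : (lf M l).IsHomogeneous 1 :=
  IsHomogeneous.sum _ _ _ fun _ _ => isHomogeneous_C_mul_X _ _

/-- the derivation with `X (l + 1) ↦ lf M l`, `X 0 ↦ 0` -/
noncomputable def dM (M : Fin 3 → Fin 4 → k) :
    Derivation k (MvPolynomial (Fin 4) k) (MvPolynomial (Fin 4) k) :=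
  lf M 0 • pderiv 1 + lf M 1 • pderiv 2 + lf M 2 • pderiv 3

theorem dM_apply (M : Fin 3 → Fin 4 → k) (f : MvPolynomial (Fin 4) k) :
    dM M f = lf M 0 * pderiv 1 f + lf M 1 * pderiv 2 f + lf M 2 * pderiv 3 f := by
  simp [dM]

theorem dM_X_zero (M : Fin 3 → Fin 4 → k) : dM M (X 0) = 0 := by
  rw [dM_apply]
  simp [pderiv_X]

theorem dM_X_succ (M : Fin 3 → Fin 4 → k) (l : Fin 3) : dM M (X l.succ) = lf M l := by
  rw [dM_apply]
  fin_cases l <;> simp [pderiv_X]

theorem dM_deg (M : Fin 3 → Fin 4 → k) (n : ℕ) :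
    ∀ a ∈ homogeneousSubmodule (Fin 4) k n, dM M a ∈ homogeneousSubmodule (Fin 4) k n := by
  intro a ha
  rw [dM_apply]
  exact add_mem (add_mem (mul_pderiv_mem (lf_hom M 0) _ _ ha) (mul_pderiv_mem (lf_hom M 1) _ _ ha))
    (mul_pderiv_mem (lf_hom M 2) _ _ ha)

theorem dM_add (M M' : Fin 3 → Fin 4 → k) (f : MvPolynomial (Fin 4) k) :
    dM (M + M') f = dM M f + dM M' f := by
  have h : ∀ l, lf (M + M') l = lf M l + lf M' l := by
    intro l
    simp only [lf, ← Finset.sum_add_distrib, Pi.add_apply, map_add, add_mul]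
  rw [dM_apply, dM_apply, dM_apply, h, h, h]
  ring

theorem dM_smul (c : k) (M : Fin 3 → Fin 4 → k) (f : MvPolynomial (Fin 4) k) :
    dM (c • M) f = C c * dM M f := by
  have h : ∀ l, lf (c • M) l = C c * lf M l := by
    intro l
    simp only [lf, Finset.mul_sum, Pi.smul_apply, smul_eq_mul, map_mul, mul_assoc]
  rw [dM_apply, dM_apply, h, h, h]
  ring

theorem lf_eq_zero {M : Fin 3 → Fin 4 → k} {l : Fin 3} (h : lf M l = 0) (i : Fin 4) :
    M l i = 0 := by
  have h1 := congrArg (coeff (Finsupp.single i 1)) h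
  rw [lf, coeff_sum, Finset.sum_eq_single i] at h1
  · simpa using h1
  · intro j _ hj
    rw [coeff_C_mul, coeff_X, if_neg, mul_zero]
    intro h2
    exact hj ((Finsupp.single_left_inj one_ne_zero).1 h2)
  · intro h2
    exact absurd (Finset.mem_univ i) h2

end deriv

section family

variable {k : Type} [Field k] [IsAlgClosed k] [CharP k 2]

/-- the family of vector fields -/
noncomputable def FM (M : Fin 3 → Fin 4 → k) :
    VectorField (H944U.toSpecK (homogeneousSubmodule (Fin 4) k)) ⊤ :=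
  ofDer (dM M) (dM_deg M) _ ⊤

theorem FM_add (M M' : Fin 3 → Fin 4 → k) (V : (Proj (homogeneousSubmodule (Fin 4) k)).Opens)
    (a : Reg _ V) :
    (FM (M + M')).D V le_top a = (FM M).D V le_top a + (FM M').D V le_top a := by
  apply reg_ext
  intro x hx
  rw [map_add]
  exact ((ev_ofDer _ _ _ _ _ _ _ _ _).trans
    (lder_add (nv x) (dM (M + M')) (dM M) (dM M') (dM_add M M') _)).trans
      (congrArg₂ (· + ·) (ev_ofDer _ _ _ _ _ _ _ _ _) (ev_ofDer _ _ _ _ _ _ _ _ _)).symm

theorem FM_smul (c : k) (M : Fin 3 → Fin 4 → k)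
    (V : (Proj (homogeneousSubmodule (Fin 4) k)).Opens) (a : Reg _ V) :
    (FM (c • M)).D V le_top a = baseHom (H944U.toSpecK (homogeneousSubmodule (Fin 4) k)) V c *
      (FM M).D V le_top a := by
  apply reg_ext
  intro x hx
  rw [map_mul, ev_baseHom]
  exact ((ev_ofDer _ _ _ _ _ _ _ _ _).trans
    (lder_mul (nv x) (dM (c • M)) (dM M) (C c) (dM_smul c M) _)).trans
      (congrArg₂ (· * ·) rfl (ev_ofDer _ _ _ _ _ _ _ _ _)).symm

omit [IsAlgClosed k] [CharP k 2] in
theorem away_inj {A : Type} [CommRing A] [Algebra k A] [IsDomain A]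
    {𝒜 : ℕ → Submodule k A} [GradedAlgebra 𝒜] {a c : 𝒜 1} (hc : (c : A) ≠ 0)
    (h : fr a c = 0) : (a : A) = 0 := by
  have h1 : Function.Injective (Proj.awayToSection 𝒜 (c : A)) := by
    have h2 : IsIso (Proj.awayToSection 𝒜 (c : A)) := by
      have := (Proj.basicOpenIsoAway 𝒜 (c : A) c.2 one_pos).isIso_hom
      rwa [Proj.basicOpenIsoAway_hom] at this
    exact (ConcreteCategory.bijective_of_isIso (Proj.awayToSection 𝒜 (c : A))).1
  have h3 : (HomogeneousLocalization.mk ⟨1, a, c, ⟨1, by simp⟩⟩ : Away 𝒜 (c : A)) = 0 := by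
    apply h1
    rw [map_zero]
    exact h
  have h4 := congrArg HomogeneousLocalization.val h3
  rw [HomogeneousLocalization.val_mk, HomogeneousLocalization.val_zero,
    ← Localization.mk_zero 1, Localization.mk_eq_mk_iff, Localization.r_iff_exists] at h4
  obtain ⟨⟨_, n, rfl⟩, h5⟩ := h4
  simp only [OneMemClass.coe_one, one_mul, mul_zero] at h5
  exact (mul_eq_zero.1 h5).resolve_left (pow_ne_zero _ hc)

theorem FM_inj (M : Fin 3 → Fin 4 → k)
    (h : ∀ (V : (Proj (homogeneousSubmodule (Fin 4) k)).Opens) (a : Reg _ V),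
      (FM M).D V le_top a = 0) : M = 0 := by
  have hX : ∀ i : Fin 4, (X i : MvPolynomial (Fin 4) k) ∈ homogeneousSubmodule (Fin 4) k 1 :=
    fun i => isHomogeneous_X k i
  funext l i
  refine lf_eq_zero ?_ i
  have h1 := ofDer_fr (𝒜 := homogeneousSubmodule (Fin 4) k) (δ := dM M) (dM_deg M)
    (H944U.toSpecK (homogeneousSubmodule (Fin 4) k)) ⊤ ⟨X l.succ, hX _⟩ ⟨X 0, hX 0⟩ le_top
    ⟨lf M l, lf_hom M l⟩ (by
      rw [dM_X_zero, dM_X_succ, mul_zero, sub_zero])
  have h2 := h1.symm.trans (h _ _)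
  exact away_inj (X_ne_zero 0) h2

end family

end Pool.Agent.V1162.Q
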