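import Pool.Agent.V1162.Q.Der
import Pool.Agent.V1162.Q.Defs

/-!
Vector fields on `Proj`, and the line sheaf `O(1)`.
-/

set_option autoImplicit false

open AlgebraicGeometry CategoryTheory TopologicalSpace

namespace Pool.Agent.V1162.Q

open Pool.Agent.Helper922.VS HomogeneousLocalization

section gen

variable {k A : Type} [Field k] [CommRing A] [Algebra k A]
  {𝒜 : ℕ → Submodule k A} [GradedAlgebra 𝒜]

instance (x : Proj 𝒜) : (ProjectiveSpectrum.asHomogeneousIdeal (𝒜 := 𝒜) x).toIdeal.IsPrime :=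
  ProjectiveSpectrum.isPrime x

/-- the submonoid of the elements not vanishing at a point -/
def nv (x : Proj 𝒜) : Submonoid A :=
  (ProjectiveSpectrum.asHomogeneousIdeal (𝒜 := 𝒜) x).toIdeal.primeCompl

theorem mem_nv {x : Proj 𝒜} {a : A} : a ∈ nv x ↔ x ∈ Proj.basicOpen 𝒜 a := Iff.rfl

/-- the value of a function at a point, in the local ring of the affine cone -/
noncomputable def ev {V : (Proj 𝒜).Opens} (x : Proj 𝒜) (hx : x ∈ V) :
    Reg (Proj 𝒜) V →+* Localization (nv x) where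
  toFun s := HomogeneousLocalization.val (𝒜 := 𝒜) (x := nv x) (Subtype.val s ⟨x, hx⟩)
  map_one' := HomogeneousLocalization.val_one
  map_zero' := HomogeneousLocalization.val_zero
  map_add' _ _ := HomogeneousLocalization.val_add _ _
  map_mul' _ _ := HomogeneousLocalization.val_mul _ _

theorem reg_ext {V : (Proj 𝒜).Opens} {s t : Reg (Proj 𝒜) V}
    (h : ∀ (x : Proj 𝒜) (hx : x ∈ V), ev x hx s = ev x hx t) : s = t := by
  apply sec_ext
  intro x
  exact HomogeneousLocalization.val_injective _ (h x.1 x.2)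

theorem ev_rs {V W : (Proj 𝒜).Opens} (h : W ≤ V) (x : Proj 𝒜) (hx : x ∈ W) (s : Reg (Proj 𝒜) V) :
    ev x hx (rs h s) = ev x (h hx) s := rfl

/-- the quotient of two homogeneous elements of degree one -/
noncomputable def fr (a c : 𝒜 1) : Reg (Proj 𝒜) (Proj.basicOpen 𝒜 (c : A)) :=
  Proj.awayToSection 𝒜 (c : A) (HomogeneousLocalization.mk ⟨1, a, c, ⟨1, by simp⟩⟩)

theorem ev_away (c : A) (z : NumDenSameDeg 𝒜 (Submonoid.powers c)) (x : Proj 𝒜)
    (hx : x ∈ Proj.basicOpen 𝒜 c) :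
    ev x hx (Proj.awayToSection 𝒜 c (HomogeneousLocalization.mk z) : Reg (Proj 𝒜) _) =
      Localization.mk (z.num : A) ⟨(z.den : A), by
        obtain ⟨n, hn⟩ := z.den_mem
        rw [← hn]
        exact pow_mem (S := nv x) hx n⟩ := rfl

theorem ev_fr (a c : 𝒜 1) (x : Proj 𝒜) (hx : x ∈ Proj.basicOpen 𝒜 (c : A)) :
    ev x hx (fr a c) = Localization.mk (a : A) ⟨(c : A), hx⟩ := rfl

theorem fr_self (a : 𝒜 1) : fr a a = 1 := by
  apply reg_ext
  intro x hx
  rw [ev_fr, map_one]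
  exact Localization.mk_self (⟨(a : A), hx⟩ : nv x)

theorem fr_mul (a b c : 𝒜 1) (W : (Proj 𝒜).Opens) (hb : W ≤ Proj.basicOpen 𝒜 (b : A))
    (hc : W ≤ Proj.basicOpen 𝒜 (c : A)) :
    rs hc (fr b c) * rs hb (fr a b) = rs hc (fr a c) := by
  apply reg_ext
  intro x hx
  rw [map_mul, ev_rs, ev_rs, ev_rs, ev_fr, ev_fr, ev_fr,
    Localization.mk_mul, Localization.mk_eq_mk_iff, Localization.r_iff_exists]
  refine ⟨1, ?_⟩
  simp only [OneMemClass.coe_one, one_mul, Submonoid.coe_mul]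
  ring

end gen

section vf

variable {k A : Type} [Field k] [IsAlgClosed k] [CharP k 2] [CommRing A] [Algebra k A]
  {𝒜 : ℕ → Submodule k A} [GradedAlgebra 𝒜]

omit [IsAlgClosed k] in
theorem two_reg {X : Scheme.{0}} (p : X ⟶ Spec (CommRingCat.of k)) (U : X.Opens) :
    (2 : Reg X U) = 0 := by
  have h : baseHom p U (2 : k) = 2 := map_ofNat _ 2
  rw [← h]
  have h2 : (2 : k) = 0 := by exact_mod_cast CharP.cast_eq_zero k 2
  rw [h2, map_zero]

/-- derivations kill the constants -/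
theorem const_auto {X : Scheme.{0}} (p : X ⟶ Spec (CommRingCat.of k)) (U : X.Opens)
    (δ : Reg X U → Reg X U) (h : ∀ a b, δ (a * b) = a * δ b + b * δ a) (c : k) :
    δ (baseHom p U c) = 0 := by
  obtain ⟨d, hd⟩ := IsAlgClosed.exists_pow_nat_eq c (n := 2) (by norm_num)
  rw [← hd, pow_two, map_mul, h, ← two_mul, two_reg p, zero_mul]

variable (D : Derivation k A A) (hD : ∀ n, ∀ a ∈ 𝒜 n, D a ∈ 𝒜 n)

/-- the vector field of a derivation of degree zero -/
noncomputable def ofDer (p : Proj 𝒜 ⟶ Spec (CommRingCat.of k)) (U : (Proj 𝒜).Opens) :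
    VectorField p U where
  D V _ s := sder D hD V s
  add V _ s t := sder_add D hD V s t
  leibniz V _ s t := sder_mul D hD V s t
  const V _ c := const_auto p V (fun s => sder D hD V s) (fun s t => sder_mul D hD V s t) c
  restrict _ _ _ _ _ := rfl

theorem ev_ofDer (p : Proj 𝒜 ⟶ Spec (CommRingCat.of k)) (U V : (Proj 𝒜).Opens) (hV : V ≤ U)
    (s : Reg (Proj 𝒜) V) (x : Proj 𝒜) (hx : x ∈ V) :
    ev x hx ((ofDer D hD p U).D V hV s) = lder (nv x) D (ev x hx s) :=
  val_hder D hD _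

end vf

section line

variable {k A : Type} [Field k] [CommRing A] [Algebra k A]
  {𝒜 : ℕ → Submodule k A} [GradedAlgebra 𝒜] {ι : Type} (g : ι → 𝒜 1)
  (hg : ∀ x : Proj 𝒜, ∃ i, x ∈ Proj.basicOpen 𝒜 (g i : A))

/-- The line sheaf `O(1)` on `Proj`, with the transition functions `g j / g i`. -/
noncomputable def OO : LineSheaf (Proj 𝒜) where
  ι := ι
  U i := Proj.basicOpen 𝒜 (g i : A)
  covers := hg
  g i j := rs inf_le_left (fr (g j) (g i))
  self i := by
    rw [fr_self]
    exact map_one (res _)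
  cocycle i j l W hi hj hl := fr_mul (g l) (g j) (g i) W hj hi

theorem not_mem_of_not_mem {a c : 𝒜 1} {x : Proj 𝒜} (hx : x ∈ Proj.basicOpen 𝒜 (c : A))
    (h : x ∈ nz (fr a c)) : x ∈ Proj.basicOpen 𝒜 (a : A) := by
  have h1 : IsUnit (ev x hx (fr a c)) := by
    have h2 := (Scheme.mem_basicOpen _ _ x hx).1 h
    have h3 := h2.map (stalkToFiberRingHom 𝒜 x).hom
    have e : (stalkToFiberRingHom 𝒜 x).hom
        ((Proj 𝒜).presheaf.germ (Proj.basicOpen 𝒜 (c : A)) x hx (fr a c)) =
        Subtype.val (fr a c) ⟨x, hx⟩ := stalkToFiberRingHom_germ 𝒜 _ x hx _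
    have h4 : IsUnit (Subtype.val (fr a c) ⟨x, hx⟩) := by
      rw [← e]
      exact h3
    exact h4.map (algebraMap (HomogeneousLocalization 𝒜 (nv x)) (Localization (nv x)))
  rw [ev_fr] at h1
  by_contra hcon
  have h4 : (a : A) ∈ (ProjectiveSpectrum.asHomogeneousIdeal (𝒜 := 𝒜) x).toIdeal := by
    by_contra h5
    exact hcon h5
  have : IsLocalization.AtPrime (Localization (nv x))
      (ProjectiveSpectrum.asHomogeneousIdeal (𝒜 := 𝒜) x).toIdeal := Localization.isLocalization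
  rw [Localization.mk_eq_mk'] at h1
  have h6 := (IsLocalization.AtPrime.isUnit_mk'_iff (Localization (nv x))
    (ProjectiveSpectrum.asHomogeneousIdeal (𝒜 := 𝒜) x).toIdeal (a : A)
    (⟨(c : A), hx⟩ : (ProjectiveSpectrum.asHomogeneousIdeal (𝒜 := 𝒜) x).toIdeal.primeCompl)).1 h1
  exact h6 h4

/-- the section of `O(1)` given by the element `a` of degree one -/
noncomputable def sect (a : 𝒜 1) : (OO g hg).PowSection 1 where
  s i := fr a (g i)
  compat i j W hi hj := by
    rw [pow_one]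
    exact (fr_mul a (g j) (g i) W hj hi).symm

theorem nonvanishing_sect (i : ι) :
    (sect g hg (g i)).nonvanishing = Proj.basicOpen 𝒜 (g i : A) := by
  apply le_antisymm
  · apply iSup_le
    intro j x hx
    have h1 : x ∈ Proj.basicOpen 𝒜 (g j : A) := Scheme.basicOpen_le _ _ hx
    exact not_mem_of_not_mem h1 hx
  · refine le_trans ?_ (le_iSup _ i)
    have h1 : (sect g hg (g i)).s i = 1 := fr_self (g i)
    rw [h1]
    intro x hx
    exact (Scheme.mem_basicOpen _ _ x hx).2 (by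
      have := isUnit_one.map ((Proj 𝒜).presheaf.germ (Proj.basicOpen 𝒜 (g i : A)) x hx).hom
      exact this)

theorem isAmple_OO [Finite ι] : (OO g hg).IsAmple := by
  refine ⟨?_, fun x => ?_⟩
  · constructor
    have h1 : (Set.univ : Set (Proj 𝒜)) = ⋃ i, (Proj.basicOpen 𝒜 (g i : A) : Set (Proj 𝒜)) := by
      ext x
      simp only [Set.mem_univ, Set.mem_iUnion, true_iff]
      exact hg x
    rw [h1]
    exact isCompact_iUnion fun i =>
      (Proj.isAffineOpen_basicOpen 𝒜 (g i : A) (g i).2 one_pos).isCompact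
  · obtain ⟨i, hi⟩ := hg x
    refine ⟨1, sect g hg (g i), one_pos, ?_, ?_⟩
    · rw [nonvanishing_sect]; exact hi
    · rw [nonvanishing_sect]
      exact Proj.isAffineOpen_basicOpen 𝒜 (g i : A) (g i).2 one_pos

end line

end Pool.Agent.V1162.Q
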