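import Pool.Agent.V1162.Q.PrA

/-!
The map from `O(1)` to the tangent sheaf of `Proj` given by a derivation of degree `-1`.
-/

set_option autoImplicit false

open AlgebraicGeometry CategoryTheory TopologicalSpace

namespace Pool.Agent.V1162.Q

open Pool.Agent.Helper922.VS HomogeneousLocalization

section rel

variable {k A : Type} [CommRing k] [CommRing A] [Algebra k A]

theorem lder_rel (M : Submonoid A) (D D' : Derivation k A A) (u v : A)
    (h : ∀ a, u * D a = v * D' a) (z : Localization M) :
    algebraMap A (Localization M) u * lder M D z =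
      algebraMap A (Localization M) v * lder M D' z := by
  induction z using Localization.induction_on with
  | H z =>
    obtain ⟨a, s⟩ := z
    rw [lder_mk, lder_mk, ← Localization.mk_one_eq_algebraMap, ← Localization.mk_one_eq_algebraMap,
      Localization.mk_mul, Localization.mk_mul]
    congr 1
    linear_combination (s : A) * h a - a * h s

end rel

section mtt

variable {k A : Type} [Field k] [IsAlgClosed k] [CharP k 2] [CommRing A] [Algebra k A]
  {𝒜 : ℕ → Submodule k A} [GradedAlgebra 𝒜] {ι : Type} (g : ι → 𝒜 1)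
  (hg : ∀ x : Proj 𝒜, ∃ i, x ∈ Proj.basicOpen 𝒜 (g i : A))
  (D : ι → Derivation k A A) (hD : ∀ i n, ∀ a ∈ 𝒜 n, D i a ∈ 𝒜 n)
  (hrel : ∀ i j a, (g i : A) * D j a = (g j : A) * D i a)

/-- The map `O(1) → T` given by derivations `D i = g i * D`. -/
noncomputable def mtt (p : Proj 𝒜 ⟶ Spec (CommRingCat.of k)) : MapToTangent p (OO g hg) where
  D i := ofDer (D i) (hD i) p _
  compat i j W hi hj a := by
    apply reg_ext
    intro x hx
    have h1 := ev_ofDer (D j) (hD j) p _ W hj a x hx
    have h2 := ev_ofDer (D i) (hD i) p _ W hi a x hx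
    refine h1.trans ?_
    rw [map_mul]
    refine Eq.trans ?_ (congrArg (fun z => ev x hx (rs (le_inf hi hj) ((OO g hg).g i j)) * z)
      h2.symm)
    have h3 : ev x hx (rs (le_inf hi hj) ((OO g hg).g i j)) =
        Localization.mk (g j : A) ⟨(g i : A), hi hx⟩ := rfl
    have h4 := lder_rel (nv x) (D j) (D i) (g i : A) (g j : A) (hrel i j) (ev x hx a)
    have h5 : algebraMap A (Localization (nv x)) (g i : A) *
        Localization.mk (g j : A) ⟨(g i : A), hi hx⟩ = algebraMap A (Localization (nv x)) (g j) := by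
      rw [← Localization.mk_one_eq_algebraMap, ← Localization.mk_one_eq_algebraMap,
        Localization.mk_mul, Localization.mk_eq_mk_iff, Localization.r_iff_exists]
      exact ⟨1, by simp⟩
    have hu : IsUnit (algebraMap A (Localization (nv x)) (g i : A)) :=
      IsLocalization.map_units (Localization (nv x)) (⟨(g i : A), hi hx⟩ : nv x)
    apply hu.mul_left_cancel
    rw [h4]
    change _ = _ * (ev x hx (rs (le_inf hi hj) ((OO g hg).g i j)) * _)
    rw [h3, ← mul_assoc, h5]

/-- the derivative of a quotient of elements of degree one -/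
theorem ofDer_fr {δ : Derivation k A A} (hδ : ∀ n, ∀ a ∈ 𝒜 n, δ a ∈ 𝒜 n)
    (p : Proj 𝒜 ⟶ Spec (CommRingCat.of k)) (U : (Proj 𝒜).Opens) (a c : 𝒜 1)
    (hU : Proj.basicOpen 𝒜 (c : A) ≤ U) (b : 𝒜 1)
    (h : (c : A) * δ a - a * δ c = c * b) :
    (ofDer δ hδ p U).D _ hU (fr a c) = fr b c := by
  apply reg_ext
  intro x hx
  rw [ev_ofDer, ev_fr, ev_fr, lder_mk, Localization.mk_eq_mk_iff, Localization.r_iff_exists]
  refine ⟨1, ?_⟩
  simp only [OneMemClass.coe_one, one_mul, Submonoid.coe_mul]
  rw [h]
  ring

end mtt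

end Pool.Agent.V1162.Q
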