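import Pool.Agent.V1162.Q.BH

/-!
Vector fields on integral schemes, and transport along isomorphisms.
-/

set_option autoImplicit false

open AlgebraicGeometry CategoryTheory TopologicalSpace

namespace Pool.Agent.V1162.Q

open Pool.Agent.Helper922.VS

section zero

variable {k : Type} [Field k] {X : Scheme.{0}} {p : X ⟶ Spec (CommRingCat.of k)}

theorem VectorField.D_zero {U : X.Opens} (T : VectorField p U) (V : X.Opens) (hV : V ≤ U) :
    T.D V hV 0 = 0 := by
  have h := T.add V hV 0 0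
  rw [add_zero] at h
  exact left_eq_add.1 h

theorem rs_injective [IsIntegral X] {V W : X.Opens} (h : W ≤ V) (hne : ∃ x : X, x ∈ W) :
    Function.Injective (rs h : Reg X V → Reg X W) := by
  obtain ⟨x, hx⟩ := hne
  have : Nonempty W := ⟨⟨x, hx⟩⟩
  exact map_injective_of_isIntegral X (homOfLE h)

/-- A vector field on an integral scheme which kills the functions on a nonempty affine open set
is zero. -/
theorem vf_zero [IsIntegral X] {T : VectorField p ⊤} {U : X.Opens} (hU : IsAffineOpen U)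
    (hne : ∃ x : X, x ∈ U) (h : ∀ a : Reg X U, T.D U le_top a = 0) (V : X.Opens) (a : Reg X V) :
    T.D V le_top a = 0 := by
  by_cases hV : ∃ x : X, x ∈ V
  · obtain ⟨x, hx⟩ := hV
    obtain ⟨y, hy⟩ := hne
    obtain ⟨z, hz1, hz2⟩ := nonempty_preirreducible_inter (X := X) V.isOpen U.isOpen ⟨x, hx⟩
      ⟨y, hy⟩
    obtain ⟨g, hg, hzg⟩ := hU.exists_basicOpen_le (V := V) ⟨z, hz1⟩ hz2
    have hle : X.basicOpen g ≤ U := X.basicOpen_le g
    have hloc := hU.isLocalization_basicOpen g
    obtain ⟨⟨t, ⟨_, n, rfl⟩⟩, ht⟩ := IsLocalization.surj (Submonoid.powers g)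
      (show Γ(X, X.basicOpen g) from rs hg a)
    have ht' : (rs hg a : Reg X (X.basicOpen g)) * rs hle (g ^ n : Reg X U) = rs hle t := ht
    have h1 := congrArg (T.D (X.basicOpen g) le_top) ht'
    have h2 : T.D (X.basicOpen g) le_top (rs hle t) = 0 := by
      rw [T.restrict U (X.basicOpen g) le_top hle t, h]
      exact map_zero (res hle)
    have h3 : T.D (X.basicOpen g) le_top (rs hle (g ^ n : Reg X U)) = 0 := by
      rw [T.restrict U (X.basicOpen g) le_top hle _, h]
      exact map_zero (res hle)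
    rw [T.leibniz, h2, h3, mul_zero, zero_add] at h1
    have hu : IsUnit (rs hle (g ^ n : Reg X U) : Reg X (X.basicOpen g)) := by
      have h4 : rs hle (g ^ n : Reg X U) = (rs hle g) ^ n := map_pow (res hle) g n
      rw [h4]
      exact (RingedSpace.isUnit_res_basicOpen X.toRingedSpace g).pow n
    have h5 : T.D (X.basicOpen g) le_top (rs hg a) = 0 := (hu.mul_right_eq_zero).1 h1
    rw [T.restrict V (X.basicOpen g) le_top hg a] at h5
    apply rs_injective hg ⟨z, hzg⟩
    rw [h5]
    exact (map_zero (res hg)).symm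
  · have hV' : V = ⊥ := by
      ext x
      simp only [SetLike.mem_coe]
      push Not at hV
      exact ⟨fun h => absurd h (hV x), fun h => h.elim⟩
    subst hV'
    have : Subsingleton Γ(X, ⊥) := inferInstance
    exact Subsingleton.elim (α := Γ(X, ⊥)) _ _

end zero

section transport

variable {k : Type} [Field k] {X Y : Scheme.{0}} {pX : X ⟶ Spec (CommRingCat.of k)}
  {pY : Y ⟶ Spec (CommRingCat.of k)} (e : X ≅ Y) (he : e.hom ≫ pY = pX)

/-- functions on `X` as functions on `Y` -/
noncomputable def pb (V : X.Opens) : Reg X V →+* Reg Y (e.inv ⁻¹ᵁ V) := (e.inv.app V).hom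

theorem pb_bijective (V : X.Opens) : Function.Bijective (pb e V) :=
  ConcreteCategory.bijective_of_isIso (e.inv.app V)

/-- functions on `X` as functions on `Y` -/
noncomputable def pbE (V : X.Opens) : Reg X V ≃+* Reg Y (e.inv ⁻¹ᵁ V) :=
  RingEquiv.ofBijective (pb e V) (pb_bijective e V)

theorem pb_rs {V W : X.Opens} (h : W ≤ V) (s : Reg X V) :
    pb e W (rs h s) = rs (fun _ hy => h hy : e.inv ⁻¹ᵁ W ≤ e.inv ⁻¹ᵁ V) (pb e V s) := by
  have h1 := e.inv.naturality (homOfLE h).op
  exact congrArg (fun q => q.hom s) h1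

include he in
theorem pb_baseHom (V : X.Opens) (c : k) :
    pb e V (baseHom pX V c) = baseHom pY (e.inv ⁻¹ᵁ V) c := by
  have h1 : e.inv ≫ pX = pY := by rw [← he, Iso.inv_hom_id_assoc]
  have h2 : pX.appLE ⊤ V le_top ≫ e.inv.app V = pY.appLE ⊤ (e.inv ⁻¹ᵁ V) le_top := by
    subst h1
    rw [← Scheme.Hom.appLE_eq_app, Scheme.Hom.appLE_comp_appLE]
  exact congrArg (fun q => q.hom ((Scheme.ΓSpecIso (CommRingCat.of k)).inv.hom c)) h2

/-- transport of a vector field -/
noncomputable def trv (F : VectorField pY ⊤) : VectorField pX ⊤ where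
  D V _ a := (pbE e V).symm (F.D (e.inv ⁻¹ᵁ V) le_top (pb e V a))
  add V _ a b := by rw [map_add, F.add, map_add]
  leibniz V _ a b := by
    have h1 : ∀ z : Reg X V, z = (pbE e V).symm (pb e V z) := fun z =>
      ((pbE e V).symm_apply_apply z).symm
    rw [map_mul, F.leibniz, map_add, map_mul, map_mul, ← h1, ← h1]
  const V _ c := by rw [pb_baseHom e he, F.const, map_zero]
  restrict V W _ h a := by
    apply (pbE e W).injective
    rw [RingEquiv.apply_symm_apply]
    change _ = pb e W (rs h _)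
    rw [pb_rs, pb_rs]
    have h1 : pb e V ((pbE e V).symm (F.D (e.inv ⁻¹ᵁ V) le_top (pb e V a))) =
        F.D (e.inv ⁻¹ᵁ V) le_top (pb e V a) := (pbE e V).apply_symm_apply _
    rw [h1]
    exact F.restrict _ _ le_top _ _

theorem pb_trv (F : VectorField pY ⊤) (V : X.Opens) (a : Reg X V) :
    pb e V ((trv e he F).D V le_top a) = F.D (e.inv ⁻¹ᵁ V) le_top (pb e V a) :=
  (pbE e V).apply_symm_apply _

theorem eq_zero_of_trv (F : VectorField pY ⊤)
    (h : ∀ (V : X.Opens) (a : Reg X V), (trv e he F).D V le_top a = 0) (W : Y.Opens)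
    (s : Reg Y W) : F.D W le_top s = 0 := by
  have hW1 : e.inv ⁻¹ᵁ (e.hom ⁻¹ᵁ W) ≤ W := by
    rw [← Scheme.Hom.comp_preimage, Iso.inv_hom_id]
    exact le_rfl
  have hW2 : W ≤ e.inv ⁻¹ᵁ (e.hom ⁻¹ᵁ W) := by
    rw [← Scheme.Hom.comp_preimage, Iso.inv_hom_id]
    exact le_rfl
  obtain ⟨a, ha⟩ := (pb_bijective e (e.hom ⁻¹ᵁ W)).2 (rs hW1 s)
  have h1 := pb_trv e he F (e.hom ⁻¹ᵁ W) a
  rw [h, map_zero, ha, F.restrict W _ le_top hW1 s] at h1
  have h2 : rs hW2 (rs hW1 (F.D W le_top s)) = F.D W le_top s := by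
    have h3 := Y.presheaf.map_comp (homOfLE hW1).op (homOfLE hW2).op
    have h4 : (homOfLE hW1).op ≫ (homOfLE hW2).op = 𝟙 (Opposite.op W) := rfl
    rw [h4, Y.presheaf.map_id] at h3
    exact (congrArg (fun q => q.hom (F.D W le_top s)) h3).symm
  rw [← h2, ← h1]
  exact map_zero (res hW2)

end transport

end Pool.Agent.V1162.Q
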